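import Pool.Agent.W890.GH.Classes
import Pool.Agent.H620R2.GaugeR.Seq
import Pool.Agent.H620R2.Gauge.NonNull
import Pool.Agent.H620R2.Gauge2.Trans

/-!
# Both directions
-/

set_option autoImplicit false

namespace Pool.Agent.W890.GH

open Pool.Agent.NPC Pool.Agent.H620R2.Gauge Filter

/-- post-processing -/
theorem isFP_post {A : Oracle} {V : List Bool → List Bool} (hV : IsFP A V)
    {ψ : List Bool × List Bool → List Bool} (hψ : Poly ψ) : IsFP A (fun y => ψ (y, V y)) :=
  IsFP.seq (φ := fun _ => []) (ψ := fun p => ψ (p.1, p.2.1)) hV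
    (IsFP.of_poly (NPC.Poly.const [])) (NPC.Poly.const [])
    (hψ.comp (NPC.Poly.pair (Poly.fst Poly.id) (Poly.fst (Poly.snd Poly.id))))

/-- few guesses are polynomially many guesses -/
theorem IsNPg.isNP {g : ℕ → ℕ} (hg : Honest g) {A : Oracle} {L : Set (List Bool)}
    (h : IsNPg g A L) : IsNP A L := by
  obtain ⟨R, hR⟩ := hg.bound
  obtain ⟨F, hF, hl⟩ := hg
  obtain ⟨V, hV, hL⟩ := h
  have hFp : Poly F := Pool.Agent.H622R2.poly_of_polyTime hF
  have hw : Poly (fun y : List Bool => (unpair y).1) := Poly.fst poly_unpair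
  have hx : Poly (fun y : List Bool => (unpair y).2) := Poly.snd poly_unpair
  have hFx : Poly (fun y : List Bool => F (unpair y).2) := hFp.comp hx
  set ψ : List Bool × List Bool → List Bool := fun p =>
    if (unpair p.1).1.length ≤ (F (unpair p.1).2).length then p.2 else [] with hψ
  have hψp : Poly ψ := by
    rw [hψ]
    have hF' : Poly (fun p : List Bool × List Bool => F (unpair p.1).2) :=
      hFx.comp (Poly.fst Poly.id)
    have hw' : Poly (fun p : List Bool × List Bool => (unpair p.1).1) :=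
      hw.comp (Poly.fst Poly.id)
    have hc : Poly (fun p : List Bool × List Bool =>
        decide ((unpair p.1).1.length ≤ (F (unpair p.1).2).length)) :=
      Poly.decide_le (Poly.length hw') (Poly.length hF')
    exact Poly.ite hc (Poly.snd Poly.id) (NPC.Poly.const [])
  refine ⟨fun y => ψ (y, V y), R, isFP_post hV hψp, fun x => (hL x).trans ?_⟩
  constructor
  · rintro ⟨w, hw, hwV⟩
    refine ⟨w, hw.trans (hR _), ?_⟩
    rw [hψ]
    simp only [unpair_pairBits, hl]
    rw [if_pos hw, hwV]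
  · rintro ⟨w, _, hwV⟩
    rw [hψ] at hwV
    simp only [unpair_pairBits, hl] at hwV
    by_cases h : w.length ≤ g x.length
    · rw [if_pos h] at hwV
      exact ⟨w, h, hwV⟩
    · rw [if_neg h] at hwV
      simp at hwV

/-- polynomial time is polynomial time with guesses -/
theorem IsP.isNPg {g : ℕ → ℕ} {A : Oracle} {L : Set (List Bool)} (h : IsP A L) : IsNPg g A L := by
  obtain ⟨V, hV, hL⟩ := h
  refine ⟨fun y => V (unpair y).2, hV.precomp (Poly.snd poly_unpair), fun x => ?_⟩
  rw [hL x]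
  constructor
  · intro h
    exact ⟨[], Nat.zero_le _, by simp only [unpair_pairBits]; exact h⟩
  · rintro ⟨w, _, h⟩
    simp only [unpair_pairBits] at h
    exact h

theorem IsNPg.withAdvice {g : ℕ → ℕ} {A : Oracle} {L : Set (List Bool)} (h : IsNPg g A L) :
    IsNPgPoly g A L := by
  obtain ⟨V, hV, hL⟩ := h
  refine ⟨fun y => V (pairBits (unpair y).1 (unpair (unpair y).2).1), fun _ => [], 0,
    hV.precomp ?_, fun n => by simp, fun x => ?_⟩
  · exact H622R2.poly_pairBits (Poly.fst poly_unpair)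
      ((Poly.fst poly_unpair).comp (Poly.snd poly_unpair))
  · rw [hL x]
    simp only [unpair_pairBits]

/-- both directions -/
theorem key {ι : Type} [Countable ι] {g g' : ι → ℕ → ℕ} (hg' : ∀ i, Honest (g' i))
    (hg : ∀ i, Gap (g i) (g' i)) (f : ℕ → ℝ) (O : Set Oracle)
    (h1 : ∀ A : Oracle, (∀ L, IsPSPACE A L → Reduces L {x | A x = true}) → A ∈ O)
    (h2 : ∀ A ∈ O, ∃ i, ∀ L, IsNPg (g' i) A L → IsNPgPoly (g i) A L ∨ IsNPgPoly (g i) A Lᶜ ∨
      WithAdvice (IsNP A) Lᶜ ∨ IsTSgPoly (g i) A L) :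
    Null f O ↔
      ∀ ε : ℝ, 0 < ε → ∃ᶠ N : ℕ in Filter.atTop, f N ≤ 2 ^ (Real.logb 2 N) ^ ε := by
  constructor
  · intro hn ε hε
    by_contra hcon
    rw [Filter.not_frequently] at hcon
    exact not_null f ε hε (hcon.mono fun N h => not_le.1 h) O h1 hn
  · intro hf
    refine (null_iUnion (f := f) (fun i => {A : Oracle | ∀ L, IsNPg (g' i) A L →
      IsNPgPoly (g i) A L ∨ IsNPgPoly (g i) A Lᶜ ∨
      WithAdvice (IsNP A) Lᶜ ∨ IsTSgPoly (g i) A L}) fun i => ?_).mono fun A hA =>
        Set.mem_iUnion.2 (h2 A hA)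
    have a1 : Null f {A : Oracle | IsNPgPoly (g i) A (hitG (g' i) A)} :=
      null_NPg hf (hg' i) (hg i)
    have a2 : Null f {A : Oracle | IsNPgPoly (g i) A (hitG (g' i) A)ᶜ} :=
      null_coNPg hf (hg' i) (hg i)
    have a3 : Null f {A : Oracle | WithAdvice (IsNP A) (hitG (g' i) A)ᶜ} :=
      null_coNP hf (hg' i) (hg i)
    have a4 : Null f {A : Oracle | IsTSgPoly (g i) A (hitG (g' i) A)} :=
      null_TS hf (hg' i) (hg i)
    refine (null_union a1 (null_union a2 (null_union a3 a4))).mono fun A hA => ?_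
    exact hA _ (hitG_np (hg' i) A)

/-- the guess bounds of the chain `log n, n, n ^ 2, n ^ 3, ...` -/
def chain : ℕ → ℕ → ℕ
  | 0 => fun n => Nat.log 2 n
  | k + 1 => fun n => n ^ (k + 1)

theorem honest_pow (k : ℕ) : Honest (fun n => n ^ k) := by
  refine ⟨fun x => List.replicate ((Polynomial.X ^ k : Polynomial ℕ).eval x.length) true,
    Pool.Agent.H622R2.polyTime_of_poly_list (V7.poly_replicate ((UPoly.length Poly.id).eval _)), fun x => ?_⟩
  rw [List.length_replicate]
  simp

theorem log_small (c : ℕ) : ∀ᶠ n : ℕ in atTop, (c + 1) * Nat.log 2 n ≤ n := by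
  have h : ∀ᶠ m : ℕ in atTop, (c + 1) * m ≤ 2 ^ m := by
    have h1 := (isLittleO_pow_exp_pos_mul_atTop (k := 1) (Real.log_pos one_lt_two)).def
      (show (0 : ℝ) < 1 / (c + 1) by positivity)
    have h2 := (tendsto_natCast_atTop_atTop (R := ℝ)).eventually h1
    filter_upwards [h2] with m hm
    rw [Real.norm_eq_abs, Real.norm_eq_abs, pow_one, abs_of_nonneg (Nat.cast_nonneg m),
      abs_of_pos (Real.exp_pos _)] at hm
    have h3 : Real.exp (Real.log 2 * m) = 2 ^ m := by
      rw [Real.exp_mul, Real.exp_log (by norm_num), Real.rpow_natCast]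
    rw [h3, one_div, inv_mul_eq_div, le_div_iff₀ (by positivity)] at hm
    have h4 : (((c + 1) * m : ℕ) : ℝ) ≤ ((2 ^ m : ℕ) : ℝ) := by
      push_cast
      linarith
    exact_mod_cast h4
  have hlog : Tendsto (fun n : ℕ => Nat.log 2 n) atTop atTop := by
    apply tendsto_atTop.2
    intro b
    filter_upwards [eventually_ge_atTop (2 ^ b)] with n hn
    exact Nat.le_log_of_pow_le (by norm_num) hn
  filter_upwards [hlog.eventually h, eventually_ge_atTop 1] with n h1 h2
  exact h1.trans (Nat.pow_log_le_self 2 (by omega))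

theorem gap_chain {j k : ℕ} (h : j < k) : Gap (chain j) (chain k) := by
  intro c
  obtain ⟨k, rfl⟩ : ∃ k', k = k' + 1 := ⟨k - 1, by omega⟩
  cases j with
  | zero =>
    filter_upwards [log_small c, eventually_ge_atTop 1] with n h1 h2
    show Nat.log 2 n + c * Nat.log 2 n ≤ n ^ (k + 1)
    calc Nat.log 2 n + c * Nat.log 2 n = (c + 1) * Nat.log 2 n := by ring
      _ ≤ n := h1
      _ ≤ n ^ (k + 1) := Nat.le_self_pow (by omega) n
  | succ j =>
    filter_upwards [log_small c, eventually_ge_atTop 2] with n h1 h2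
    show n ^ (j + 1) + c * Nat.log 2 n ≤ n ^ (k + 1)
    have h3 : c * Nat.log 2 n ≤ n := by
      have : c * Nat.log 2 n ≤ (c + 1) * Nat.log 2 n := Nat.mul_le_mul_right _ (by omega)
      omega
    have h4 : n ≤ n ^ (j + 1) := Nat.le_self_pow (by omega) n
    calc n ^ (j + 1) + c * Nat.log 2 n ≤ 2 * n ^ (j + 1) := by omega
      _ ≤ n * n ^ (j + 1) := Nat.mul_le_mul_right _ h2
      _ = n ^ (j + 2) := by ring
      _ ≤ n ^ (k + 1) := Nat.pow_le_pow_right (by omega) (by omega)

theorem chain_isNP {k : ℕ} {A : Oracle} {L : Set (List Bool)} (h : IsNPg (chain (k + 1)) A L) :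
    IsNP A L := IsNPg.isNP (honest_pow (k + 1)) h

/-- relative to the coding oracles everything collapses -/
theorem coding_np {A : Oracle} (hA : ∀ L, IsPSPACE A L → Reduces L {x | A x = true})
    {L : Set (List Bool)} (h : IsNP A L) (g : ℕ → ℕ) : IsNPg g A L :=
  IsP.isNPg (isP_of_reduces (hA L h.isPSPACE))

end Pool.Agent.W890.GH
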