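import Pool.Agent.H620R2.Gauge2.V1

/-!
# Cells under a partial assignment

Bits of a random point are revealed one after another. `hh D v c` is the conditional probability
that the cell `c` is all true if the bits in `D` are those of `v`; `Psi` is a bound for the
conditional probabilities of both values of the event that some cell is all true, which grows only slowly when
one more bit is revealed.
-/

set_option linter.unusedSectionVars false
set_option linter.unusedDecidableInType false
set_option linter.unusedFintypeInType false

namespace Pool.Agent.W890.GH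

open Finset H568R2 Pool.Agent.H676 Pool.Agent.H620R2.Gauge

variable {I : Type*} [Fintype I] [DecidableEq I]

/-- equality version of `prod_block` -/
theorem prod_block_eq {κ : Type*} (S : Finset κ) (B : κ → Finset I)
    (φ : κ → (I → Bool) → ℝ) (u : κ → ℝ)
    (hdep : ∀ i ∈ S, ∀ i' ∈ S, i ≠ i' → ∀ a b, φ i (mix (B i') b a) = φ i a)
    (hone : ∀ i ∈ S, ∀ a, Ex unif (fun b => φ i (mix (B i) b a)) = u i) :
    Ex unif (fun a => ∏ i ∈ S, φ i a) = ∏ i ∈ S, u i := by
  classical
  induction S using Finset.induction_on with
  | empty =>
    simp only [Finset.prod_empty]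
    rw [Ex_const unif_sum]
  | insert k S hk ih =>
    have ih' := ih
      (fun i hi i' hi' => hdep i (Finset.mem_insert_of_mem hi) i' (Finset.mem_insert_of_mem hi'))
      (fun i hi => hone i (Finset.mem_insert_of_mem hi))
    rw [← Ex_mix (B k), Finset.prod_insert hk]
    calc Ex unif (fun a => Ex unif (fun b => ∏ i ∈ insert k S, φ i (mix (B k) b a)))
        = Ex unif (fun a => u k * ∏ i ∈ S, φ i a) := by
          refine congrArg (Ex unif) (funext fun a => ?_)
          have e1 : ∀ b : I → Bool, ∏ i ∈ insert k S, φ i (mix (B k) b a) =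
              (∏ i ∈ S, φ i a) * φ k (mix (B k) b a) := by
            intro b
            rw [Finset.prod_insert hk, mul_comm]
            congr 1
            refine Finset.prod_congr rfl fun i hi => ?_
            refine hdep i (Finset.mem_insert_of_mem hi) k (Finset.mem_insert_self k S) ?_ a b
            rintro rfl
            exact hk hi
          rw [funext e1, Ex_smul, mul_comm (u k), hone k (Finset.mem_insert_self k S) a]
      _ = u k * Ex unif (fun a => ∏ i ∈ S, φ i a) := Ex_smul _ _ _
      _ = u k * ∏ i ∈ S, u i := by rw [ih']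

/-- the conditional probability that the cell is all true -/
noncomputable def hh (D : Finset I) (v : I → Bool) (c : Finset I) : ℝ :=
  if ∀ i ∈ c, i ∈ D → v i = true then (1 / 2) ^ (c \ D).card else 0

theorem hh_nonneg (D : Finset I) (v : I → Bool) (c : Finset I) : 0 ≤ hh D v c := by
  unfold hh; split_ifs <;> positivity

theorem hh_le_one (D : Finset I) (v : I → Bool) (c : Finset I) : hh D v c ≤ 1 := by
  unfold hh
  split_ifs
  · exact pow_le_one₀ (by norm_num) (by norm_num)
  · norm_num

theorem hh_eq (D : Finset I) (v : I → Bool) (c : Finset I) :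
    Ex unif (fun a : I → Bool => if ∀ i ∈ c, mix D v a i = true then (1 : ℝ) else 0) =
      hh D v c := by
  have h1 : ∀ a : I → Bool, (if ∀ i ∈ c, mix D v a i = true then (1 : ℝ) else 0) =
      (if ∀ i ∈ c, i ∈ D → v i = true then (1 : ℝ) else 0) *
        (if ∀ i ∈ c \ D, a i = true then 1 else 0) := by
    intro a
    by_cases h : ∀ i ∈ c, i ∈ D → v i = true
    · by_cases h' : ∀ i ∈ c \ D, a i = true
      · rw [if_pos h, if_pos h', if_pos]
        · norm_num
        · intro i hi
          by_cases hiD : i ∈ D
          · simp [mix, hiD, h i hi hiD]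
          · simp [mix, hiD, h' i (Finset.mem_sdiff.2 ⟨hi, hiD⟩)]
      · rw [if_pos h, if_neg h', if_neg]
        · norm_num
        · intro h2
          apply h'
          intro i hi
          obtain ⟨hi1, hi2⟩ := Finset.mem_sdiff.1 hi
          have := h2 i hi1
          simpa [mix, hi2] using this
    · rw [if_neg h, if_neg]
      · simp
      · intro h2
        apply h
        intro i hi hiD
        have := h2 i hi
        simpa [mix, hiD] using this
  rw [funext h1]
  have h2 := Ex_indep (I := I) (w := unif) unif_sum (fun b : Bool => b = true) (c \ D)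
    (fun _ => if ∀ i ∈ c, i ∈ D → v i = true then (1 : ℝ) else 0) (by intros; rfl)
  rw [h2, Ex_const unif_sum]
  unfold hh
  have h3 : ∑ a ∈ univ.filter (fun b : Bool => b = true), unif a = 1 / 2 := by
    rw [show (univ.filter (fun b : Bool => b = true)) = {true} by decide]
    simp [unif]
  rw [h3]
  split_ifs <;> simp

/-- revealing a bit outside the cell -/
theorem hh_out (D : Finset I) (v : I → Bool) (c : Finset I) (i : I) (b : Bool) (hi : i ∉ c) :
    hh (insert i D) (Function.update v i b) c = hh D v c := by
  unfold hh
  have h1 : (∀ j ∈ c, j ∈ insert i D → Function.update v i b j = true) ↔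
      (∀ j ∈ c, j ∈ D → v j = true) := by
    refine forall_congr' fun j => forall_congr' fun hj => ?_
    have hne : j ≠ i := fun h => hi (h ▸ hj)
    rw [Function.update_of_ne hne, Finset.mem_insert]
    simp [hne]
  have h2 : c \ insert i D = c \ D := by
    ext j
    simp only [Finset.mem_sdiff, Finset.mem_insert]
    constructor
    · rintro ⟨h3, h4⟩; exact ⟨h3, fun h => h4 (Or.inr h)⟩
    · rintro ⟨h3, h4⟩
      refine ⟨h3, fun h => ?_⟩
      rcases h with h | h
      · exact hi (h ▸ h3)
      · exact h4 h
  simp only [h1, h2]

/-- revealing a bit of the cell: the conditional probability is a martingale -/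
theorem hh_in (D : Finset I) (v : I → Bool) (c : Finset I) (i : I) (hi : i ∈ c) (hD : i ∉ D) :
    ∑ b : Bool, unif b * hh (insert i D) (Function.update v i b) c = hh D v c := by
  have h0 : hh (insert i D) (Function.update v i false) c = 0 := by
    unfold hh
    rw [if_neg]
    intro h
    have := h i hi (Finset.mem_insert_self i D)
    simp at this
  have h1 : hh (insert i D) (Function.update v i true) c = 2 * hh D v c := by
    unfold hh
    have h1 : (∀ j ∈ c, j ∈ insert i D → Function.update v i true j = true) ↔
        (∀ j ∈ c, j ∈ D → v j = true) := by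
      refine forall_congr' fun j => forall_congr' fun hj => ?_
      by_cases hne : j = i
      · subst hne; simp [hD]
      · rw [Function.update_of_ne hne, Finset.mem_insert]
        simp [hne]
    have h2 : (c \ D).card = (c \ insert i D).card + 1 := by
      have h3 : c \ D = insert i (c \ insert i D) := by
        ext j
        simp only [Finset.mem_sdiff, Finset.mem_insert]
        constructor
        · rintro ⟨h3, h4⟩
          by_cases hne : j = i
          · exact Or.inl hne
          · exact Or.inr ⟨h3, fun h => h.elim hne h4⟩
        · rintro (h | ⟨h3, h4⟩)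
          · subst h; exact ⟨hi, hD⟩
          · exact ⟨h3, fun h => h4 (Or.inr h)⟩
      rw [h3, Finset.card_insert_of_notMem]
      simp
    simp only [h1, h2]
    split_ifs
    · rw [pow_succ]; ring
    · ring
  rw [Fintype.sum_bool, h0, h1]
  unfold unif
  ring

/-- is the cell touched by the revealed bits? -/
def tch (D c : Finset I) : Prop := (c ∩ D).Nonempty

instance (D c : Finset I) : Decidable (tch D c) := by unfold tch; infer_instance

theorem hh_untouched {D : Finset I} (v : I → Bool) {c : Finset I} (h : ¬ tch D c) :
    hh D v c = (1 / 2) ^ c.card := by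
  have h1 : ∀ i ∈ c, i ∉ D := by
    intro i hi hiD
    exact h ⟨i, Finset.mem_inter.2 ⟨hi, hiD⟩⟩
  unfold hh
  rw [if_pos]
  · congr 2
    ext j
    simp only [Finset.mem_sdiff]
    exact ⟨fun h => h.1, fun h => ⟨h, h1 j h⟩⟩
  · intro i hi hiD
    exact absurd hiD (h1 i hi)

/-- the potential of a block of cells -/
noncomputable def Psi {J : Type*} [Fintype J] (q : ℝ) (W : J → Finset I) (D : Finset I)
    (v : I → Bool) : ℝ :=
  3 / 4 + ∑ j, if tch D (W j) then hh D v (W j) + q else 0

variable {J : Type*} [Fintype J]

theorem Psi_ge {q : ℝ} (hq : 0 ≤ q) (W : J → Finset I) (D : Finset I) (v : I → Bool) :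
    3 / 4 ≤ Psi q W D v := by
  unfold Psi
  have : 0 ≤ ∑ j, if tch D (W j) then hh D v (W j) + q else 0 := by
    apply Finset.sum_nonneg
    intro j _
    split_ifs
    · have := hh_nonneg D v (W j); linarith
    · exact le_rfl
  linarith

theorem Psi_empty (q : ℝ) (W : J → Finset I) (v : I → Bool) : Psi q W ∅ v = 3 / 4 := by
  unfold Psi
  rw [Finset.sum_eq_zero]
  · ring
  · intro j _
    rw [if_neg]
    rintro ⟨i, hi⟩
    simp at hi

theorem tch_insert_out {D c : Finset I} {i : I} (hi : i ∉ c) : tch (insert i D) c ↔ tch D c := by
  unfold tch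
  rw [Finset.inter_insert_of_notMem hi]

theorem tch_insert_in {D c : Finset I} {i : I} (hi : i ∈ c) : tch (insert i D) c :=
  ⟨i, Finset.mem_inter.2 ⟨hi, Finset.mem_insert_self i D⟩⟩

theorem Psi_out (q : ℝ) (W : J → Finset I) (D : Finset I) (v : I → Bool) (i : I) (b : Bool)
    (hi : ∀ j, i ∉ W j) : Psi q W (insert i D) (Function.update v i b) = Psi q W D v := by
  unfold Psi
  congr 1
  refine Finset.sum_congr rfl fun j _ => ?_
  rw [hh_out D v (W j) i b (hi j)]
  simp only [tch_insert_out (hi j)]

theorem Psi_in {q : ℝ} (hq : 0 ≤ q) (W : J → Finset I) (D : Finset I) (v : I → Bool) (i : I)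
    (j₀ : J) (hi : i ∈ W j₀) (hd : ∀ j, j ≠ j₀ → i ∉ W j) (hD : i ∉ D)
    (hc : (1 / 2 : ℝ) ^ (W j₀).card ≤ q) :
    ∑ b : Bool, unif b * Psi q W (insert i D) (Function.update v i b) ≤
      Psi q W D v * (1 + 8 / 3 * q) := by
  classical
  have key : ∑ b : Bool, unif b * Psi q W (insert i D) (Function.update v i b) ≤
      Psi q W D v + 2 * q := by
    have h1 : ∀ b : Bool, Psi q W (insert i D) (Function.update v i b) =
        3 / 4 + ∑ j ∈ univ.erase j₀, (if tch D (W j) then hh D v (W j) + q else 0) +
          (hh (insert i D) (Function.update v i b) (W j₀) + q) := by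
      intro b
      unfold Psi
      rw [← Finset.add_sum_erase univ _ (Finset.mem_univ j₀), if_pos (tch_insert_in hi)]
      have h2 : ∑ x ∈ univ.erase j₀, (if tch (insert i D) (W x) then
          hh (insert i D) (Function.update v i b) (W x) + q else 0) =
          ∑ j ∈ univ.erase j₀, (if tch D (W j) then hh D v (W j) + q else 0) := by
        refine Finset.sum_congr rfl fun j hj => ?_
        have hj' := hd j (Finset.ne_of_mem_erase hj)
        rw [hh_out D v (W j) i b hj']
        simp only [tch_insert_out hj']
      rw [h2]
      ring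
    have h3 : Psi q W D v = 3 / 4 + ∑ j ∈ univ.erase j₀, (if tch D (W j) then
        hh D v (W j) + q else 0) + (if tch D (W j₀) then hh D v (W j₀) + q else 0) := by
      unfold Psi
      rw [← Finset.add_sum_erase univ _ (Finset.mem_univ j₀)]
      ring
    have h4 := hh_in D v (W j₀) i hi hD
    rw [Fintype.sum_bool] at h4 ⊢
    rw [h1, h1, h3]
    unfold unif at h4 ⊢
    by_cases ht : tch D (W j₀)
    · rw [if_pos ht]
      linarith
    · rw [if_neg ht]
      rw [hh_untouched v ht] at h4
      linarith
  have h5 := Psi_ge hq W D v
  nlinarith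

end Pool.Agent.W890.GH
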