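import Pool.Agent.W890.GH.Null
import Pool.Agent.H620R2.Gauge.W
import Pool.Agent.H620R2.Gauge.C

/-!
# The classes of the theorem do not contain the hit language
-/

set_option autoImplicit false
set_option linter.unusedSectionVars false

namespace Pool.Agent.W890.GH

open Pool.Agent.NPC Finset H568R2 Pool.Agent.H676 Pool.Agent.H620R2.Gauge Filter

/-! ### Growth -/

theorem gap_poly {g g' : ℕ → ℕ} (hg : Gap g g') (P : Polynomial ℕ) :
    ∀ᶠ n : ℕ in atTop, P.eval n * 2 ^ g n ≤ 2 ^ g' n := by
  have hlog : Tendsto (fun n : ℕ => Nat.log 2 n) atTop atTop := by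
    apply tendsto_atTop.2
    intro b
    filter_upwards [eventually_ge_atTop (2 ^ b)] with n hn
    exact Nat.le_log_of_pow_le (by norm_num) hn
  filter_upwards [hg (P.natDegree + 1), eventually_ge_atTop 1,
    hlog.eventually_ge_atTop (P.eval 1 + P.natDegree)] with n h1 h2 h3
  have h4 : P.eval n ≤ P.eval 1 * n ^ P.natDegree := Y_poly_le P n h2
  have h5 : n ≤ 2 ^ (Nat.log 2 n + 1) := (Nat.lt_pow_succ_log_self (by norm_num) n).le
  have h6 : n ^ P.natDegree ≤ 2 ^ ((Nat.log 2 n + 1) * P.natDegree) := by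
    rw [pow_mul]
    exact Nat.pow_le_pow_left h5 _
  have h7 : P.eval 1 ≤ 2 ^ P.eval 1 := Nat.lt_two_pow_self.le
  calc P.eval n * 2 ^ g n ≤ (P.eval 1 * n ^ P.natDegree) * 2 ^ g n := Nat.mul_le_mul_right _ h4
    _ ≤ (2 ^ P.eval 1 * 2 ^ ((Nat.log 2 n + 1) * P.natDegree)) * 2 ^ g n :=
        Nat.mul_le_mul_right _ (Nat.mul_le_mul h7 h6)
    _ = 2 ^ (P.eval 1 + (Nat.log 2 n + 1) * P.natDegree + g n) := by rw [← pow_add, ← pow_add]
    _ ≤ 2 ^ g' n := by
        apply Nat.pow_le_pow_right (by norm_num)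
        nlinarith

theorem gap_pos {g g' : ℕ → ℕ} (hg : Gap g g') : ∀ᶠ n : ℕ in atTop, 1 ≤ g' n := by
  filter_upwards [hg 1, eventually_ge_atTop 2] with n h1 h2
  have : 1 ≤ Nat.log 2 n := Nat.le_log_of_pow_le (by norm_num) (by omega)
  omega

theorem gap_bound {g g' : ℕ → ℕ} (hg : Gap g g') {R : Polynomial ℕ}
    (hR : ∀ n, g' n ≤ R.eval n) : ∃ R' : Polynomial ℕ, ∀ n, g n ≤ R'.eval n := by
  obtain ⟨n₀, hn₀⟩ := eventually_atTop.1 (hg 0)
  refine ⟨R + Polynomial.C (∑ n ∈ Finset.range n₀, g n), fun n => ?_⟩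
  rw [Polynomial.eval_add, Polynomial.eval_C]
  by_cases h : n₀ ≤ n
  · have h1 := hn₀ n h
    have h2 := hR n
    omega
  · have h1 : g n ≤ ∑ n ∈ Finset.range n₀, g n :=
      Finset.single_le_sum (f := g) (fun _ _ => Nat.zero_le _) (Finset.mem_range.2 (by omega))
    omega

theorem Honest.bound {g : ℕ → ℕ} (hg : Honest g) : ∃ R : Polynomial ℕ, ∀ n, g n ≤ R.eval n := by
  obtain ⟨F, hF, hl⟩ := hg
  obtain ⟨q, hq⟩ := (Pool.Agent.H622R2.poly_of_polyTime hF).sz_le
  refine ⟨q.comp (Polynomial.C 4 * Polynomial.X + Polynomial.C 1), fun n => ?_⟩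
  have h1 := hq (List.replicate n true)
  have h2 := length_lt_sz (F (List.replicate n true))
  have h3 := sz_listBool_le (List.replicate n true)
  have h4 := hl (List.replicate n true)
  rw [List.length_replicate] at h3 h4
  rw [← h4, Polynomial.eval_comp]
  refine h2.le.trans (h1.trans (eval_mono _ ?_))
  simp only [Polynomial.eval_add, Polynomial.eval_mul, Polynomial.eval_C, Polynomial.eval_X]
  omega

/-! ### Decision trees -/

theorem DTr_or {I : Type*} [Fintype I] [DecidableEq I] {t : ℕ} : ∀ {s : ℕ}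
    {f g : (I → Bool) → Bool}, DTr s f → DTr t g → DTr (s + t) (fun a => f a || g a) := by
  intro s
  induction s with
  | zero =>
    rintro f g ⟨c, hc⟩ hg
    rw [Nat.zero_add]
    exact (congrArg (DTr t) (funext fun a => by rw [hc a])).mp (hg.comp (fun b => c || b))
  | succ s ih =>
    intro f g hf hg
    rcases hf with ⟨c, hc⟩ | ⟨i, hi⟩
    · refine DTr.mono ((congrArg (DTr t) (funext fun a => by rw [hc a])).mp
        (hg.comp (fun b => c || b))) (by omega)
    · rw [show s + 1 + t = (s + t) + 1 by ring]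
      exact Or.inr ⟨i, fun b => ih (hi b) (DTr_update hg i b)⟩

theorem DTr_or_finset {I : Type*} [Fintype I] [DecidableEq I] {t : ℕ} {ι : Type*}
    [DecidableEq ι] (S : Finset ι) (f : ι → (I → Bool) → Bool) (hf : ∀ s ∈ S, DTr t (f s)) :
    DTr (S.card * t) (fun a => decide (∃ s ∈ S, f s a = true)) := by
  classical
  induction S using Finset.induction_on with
  | empty => exact DTr.const ⟨false, fun a => by simp⟩
  | insert i S hi ih =>
    have h1 := ih (fun s hs => hf s (Finset.mem_insert_of_mem hs))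
    have h2 := DTr_or (hf i (Finset.mem_insert_self i S)) h1
    rw [Finset.card_insert_of_notMem hi, show (S.card + 1) * t = t + S.card * t by ring]
    refine (congrArg (DTr (t + S.card * t)) (funext fun a => ?_)).mp h2
    rw [Bool.eq_iff_iff]
    simp

open Classical in
/-- the acceptance function of an algorithm with `m` guesses -/
noncomputable def acc (m : ℕ) (M : Alg) (N : ℕ) (y : List Bool) (a : Fin N → Bool) : Bool :=
  decide (∃ w : List Bool, w.length ≤ m ∧ leaf M N (pairBits w y) a = true)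

open Classical in
theorem acc_iff (m : ℕ) (M : Alg) (N : ℕ) (y : List Bool) (a : Fin N → Bool) :
    acc m M N y a = true ↔ ∃ w : List Bool, w.length ≤ m ∧ leaf M N (pairBits w y) a = true := by
  unfold acc
  exact decide_eq_true_iff

theorem DTr_acc (m : ℕ) (M : Alg) (N : ℕ) (y : List Bool) :
    DTr (2 ^ (m + 1) * M.p.eval (2 * m + 1 + y.length)) (acc m M N y) := by
  classical
  have h1 := DTr_or_finset (W_strs m) (fun w => leaf M N (pairBits w y))
    (t := M.p.eval (2 * m + 1 + y.length)) (by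
    intro w hw
    have hwl := W_length_of_mem hw
    refine (dtr_out M N (pairBits w y)).mono (eval_mono _ ?_)
    rw [length_pairBits]
    omega)
  have h2 := h1.mono (Nat.mul_le_mul_right (M.p.eval (2 * m + 1 + y.length)) (W_card_strs m))
  refine (congrArg (DTr _) (funext fun a => ?_)).mp h2
  rw [Bool.eq_iff_iff, decide_eq_true_eq, acc_iff]
  constructor
  · rintro ⟨w, hw, h⟩; exact ⟨w, W_length_of_mem hw, h⟩
  · rintro ⟨w, hw, h⟩; exact ⟨w, W_mem_strs hw, h⟩

theorem cert_acc (m : ℕ) (M : Alg) (N : ℕ) (y : List Bool) :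
    Cert (M.p.eval (2 * m + 1 + y.length)) true (acc m M N y) := by
  intro a ha
  have ha' := (acc_iff m M N y a).1 ha
  obtain ⟨w, hw, hwa⟩ := ha'
  have h1 : DTr (M.p.eval (2 * m + 1 + y.length)) (leaf M N (pairBits w y)) := by
    refine (dtr_out M N (pairBits w y)).mono (eval_mono _ ?_)
    rw [length_pairBits]
    omega
  obtain ⟨A, hA, hy⟩ := h1.cert true a hwa
  refine ⟨A, hA, fun b hb => ?_⟩
  exact (acc_iff m M N y b).2 ⟨w, hw, hy b hb⟩

/-- A long enough prefix of the oracle determines the run. -/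
theorem leaf_pre (M : Alg) : ∃ qb : Polynomial ℕ, ∀ (A : Oracle) (V : List Bool → List Bool),
    (∀ x, M.out A x = some (V x)) → ∀ (N ℓ : ℕ), 2 ^ (qb.eval ℓ + 1) ≤ N →
    ∀ y : List Bool, y.length ≤ ℓ → (V y = [true] ↔ leaf M N y (pre N A) = true) := by
  obtain ⟨qb, hqb⟩ := Alg.out_local M
  refine ⟨qb, fun A V hM N ℓ hN y hy => ?_⟩
  obtain ⟨Q, _, hQl, hQA⟩ := hqb A y
  have h1 : M.out (orc N (pre N A)) y = M.out A y := by
    apply hQA
    intro q hq
    apply orc_pre
    have h2 := idx_lt q
    have h3 : q.length ≤ qb.eval ℓ := (hQl q hq).trans (eval_mono _ hy)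
    have h4 : 2 ^ (q.length + 1) ≤ 2 ^ (qb.eval ℓ + 1) :=
      Nat.pow_le_pow_right (by norm_num) (by omega)
    omega
  unfold leaf
  rw [h1, hM y, decide_eq_true_eq, Option.some.injEq]

/-! ### `NP_g` with advice -/

/-- the oracles for which the algorithm works -/
def SetG (g g' : ℕ → ℕ) (b : Bool) (θ : Alg × Polynomial ℕ) : Set Oracle :=
  {A | ∃ (V : List Bool → List Bool) (h : ℕ → List Bool),
    (∀ x, θ.1.out A x = some (V x)) ∧ (∀ n, (h n).length ≤ θ.2.eval n) ∧
    ∀ x, ((x ∈ hitG g' A) = (b = true)) ↔ ∃ w : List Bool, w.length ≤ g x.length ∧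
      V (pairBits w (pairBits x (h x.length))) = [true]}

theorem null_G {f : ℕ → ℝ} (hf : Cond f) {g g' : ℕ → ℕ} (hg' : Honest g') (hg : Gap g g')
    (b : Bool) (θ : Alg × Polynomial ℕ) : Null f (SetG g g' b θ) := by
  obtain ⟨M, p⟩ := θ
  obtain ⟨R, hR⟩ := hg'.bound
  obtain ⟨R', hR'⟩ := gap_bound hg hR
  obtain ⟨qb, hqb⟩ := leaf_pre M
  set ℓ : Polynomial ℕ := 2 * R' + 1 + (2 * Polynomial.X + 1 + p) with hℓ
  have hℓe : ∀ n, ℓ.eval n = 2 * R'.eval n + 1 + (2 * n + 1 + p.eval n) := by
    intro n; simp [hℓ]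
  refine null_of_dtr hf R hR _ p (qb.comp ℓ)
    (fun n => 2 ^ (g n + 1) * (M.p.comp ℓ).eval n) ?_
    (fun N h x a => (acc (g x.length) M N (pairBits x h) a) == b) ?_ ?_
  · filter_upwards [gap_poly hg (128 * M.p.comp ℓ), gap_pos hg] with n h1 h2
    refine ⟨?_, h2⟩
    refine le_trans (le_of_eq ?_) h1
    have h3 : (128 * M.p.comp ℓ).eval n = 128 * (M.p.comp ℓ).eval n := by simp
    rw [h3, pow_succ]
    ring
  · intro n N h x hh hx
    have h1 := (DTr_acc (g x.length) M N (pairBits x h)).comp (fun c => c == b)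
    refine h1.mono ?_
    rw [hx]
    apply Nat.mul_le_mul_left
    rw [Polynomial.eval_comp]
    apply eval_mono
    rw [hℓe, length_pairBits, hx]
    have := hR' n
    omega
  · rintro A ⟨V, h, hM, hh, hx⟩ n N hN
    refine ⟨h n, hh n, fun x hxn => ?_⟩
    rw [Polynomial.eval_comp] at hN
    have h1 : acc (g x.length) M N (pairBits x (h n)) (pre N A) = true ↔
        ((x ∈ hitG g' A) = (b = true)) := by
      rw [hx x, hxn, acc_iff]
      refine exists_congr fun w => and_congr_right fun hw => ?_
      refine (hqb A V hM N (ℓ.eval n) hN _ ?_).symm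
      rw [length_pairBits, length_pairBits, hxn, hℓe]
      have h2 := hR' n
      have h3 : (h n).length ≤ p.eval n := hh n
      omega
    cases b with
    | true =>
      have h2 : ((x ∈ hitG g' A) = (true = true)) ↔ x ∈ hitG g' A := by simp
      rw [h2] at h1
      rw [← h1]
      simp
    | false =>
      have h2 : ((x ∈ hitG g' A) = (false = true)) ↔ x ∉ hitG g' A := by simp
      rw [h2] at h1
      rw [← not_iff_not, ← h1]
      simp

theorem null_NPg {f : ℕ → ℝ} (hf : Cond f) {g g' : ℕ → ℕ} (hg' : Honest g') (hg : Gap g g') :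
    Null f {A : Oracle | IsNPgPoly g A (hitG g' A)} := by
  have := CC.poly_countable
  refine (null_iUnion (f := f) (SetG g g' true) fun θ => null_G hf hg' hg true θ).mono ?_
  rintro A ⟨V, h, p, ⟨M, hM⟩, hh, hx⟩
  refine Set.mem_iUnion.2 ⟨(M, p), V, h, hM, hh, fun x => ?_⟩
  rw [← hx x]
  simp

theorem null_coNPg {f : ℕ → ℝ} (hf : Cond f) {g g' : ℕ → ℕ} (hg' : Honest g') (hg : Gap g g') :
    Null f {A : Oracle | IsNPgPoly g A (hitG g' A)ᶜ} := by
  have := CC.poly_countable
  refine (null_iUnion (f := f) (SetG g g' false) fun θ => null_G hf hg' hg false θ).mono ?_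
  rintro A ⟨V, h, p, ⟨M, hM⟩, hh, hx⟩
  refine Set.mem_iUnion.2 ⟨(M, p), V, h, hM, hh, fun x => ?_⟩
  rw [← hx x]
  simp

/-! ### `coNP` with advice -/

/-- the oracles for which the algorithm works -/
def SetN (g' : ℕ → ℕ) (θ : Alg × Polynomial ℕ × Polynomial ℕ) : Set Oracle :=
  {A | ∃ (V : List Bool → List Bool) (h : ℕ → List Bool),
    (∀ x, θ.1.out A x = some (V x)) ∧ (∀ n, (h n).length ≤ θ.2.2.eval n) ∧
    ∀ x, x ∉ hitG g' A ↔ ∃ w : List Bool,
      w.length ≤ θ.2.1.eval (pairBits x (h x.length)).length ∧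
      V (pairBits w (pairBits x (h x.length))) = [true]}

theorem null_N {f : ℕ → ℝ} (hf : Cond f) {g g' : ℕ → ℕ} (hg' : Honest g') (hg : Gap g g')
    (θ : Alg × Polynomial ℕ × Polynomial ℕ) : Null f (SetN g' θ) := by
  obtain ⟨M, r, p⟩ := θ
  obtain ⟨R, hR⟩ := hg'.bound
  obtain ⟨qb, hqb⟩ := leaf_pre M
  set ℓ : Polynomial ℕ := 2 * r.comp (2 * Polynomial.X + 1 + p) + 1 +
    (2 * Polynomial.X + 1 + p) with hℓ
  have hℓe : ∀ n, ℓ.eval n = 2 * r.eval (2 * n + 1 + p.eval n) + 1 + (2 * n + 1 + p.eval n) := by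
    intro n; simp [hℓ, Polynomial.eval_comp]
  refine null_of_cert hf R hR _ p (qb.comp ℓ) (M.p.comp ℓ) ?_
    (fun N h x a => acc (r.eval (pairBits x h).length) M N (pairBits x h) a) ?_ ?_
  · filter_upwards [gap_poly hg (2 * M.p.comp ℓ), gap_pos hg] with n h1 h2
    refine ⟨?_, h2⟩
    refine le_trans ?_ h1
    have h3 : (2 * M.p.comp ℓ).eval n = 2 * (M.p.comp ℓ).eval n := by simp
    rw [h3]
    exact Nat.le_mul_of_pos_right _ (by positivity)
  · intro n N h x hh hx
    have h1 := cert_acc (r.eval (pairBits x h).length) M N (pairBits x h)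
    refine fun a ha => ?_
    obtain ⟨A, hA, hy⟩ := h1 a ha
    refine ⟨A, hA.trans ?_, hy⟩
    rw [Polynomial.eval_comp]
    apply eval_mono
    rw [hℓe, length_pairBits, hx]
    have : r.eval (2 * n + 1 + h.length) ≤ r.eval (2 * n + 1 + p.eval n) :=
      eval_mono _ (by omega)
    omega
  · rintro A ⟨V, h, hM, hh, hx⟩ n N hN
    refine ⟨h n, hh n, fun x hxn => ?_⟩
    rw [Polynomial.eval_comp] at hN
    rw [hx x, hxn, acc_iff]
    refine exists_congr fun w => and_congr_right fun hw => ?_
    refine hqb A V hM N (ℓ.eval n) hN _ ?_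
    rw [length_pairBits] at hw
    rw [hxn] at hw
    rw [length_pairBits, length_pairBits, hxn, hℓe]
    have h3 : (h n).length ≤ p.eval n := hh n
    have h4 : r.eval (2 * n + 1 + (h n).length) ≤ r.eval (2 * n + 1 + p.eval n) :=
      eval_mono _ (by omega)
    simp only at hw
    omega

theorem null_coNP {f : ℕ → ℝ} (hf : Cond f) {g g' : ℕ → ℕ} (hg' : Honest g') (hg : Gap g g') :
    Null f {A : Oracle | WithAdvice (IsNP A) (hitG g' A)ᶜ} := by
  have := CC.poly_countable
  refine (null_iUnion (f := f) (SetN g') fun θ => null_N hf hg' hg θ).mono ?_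
  rintro A ⟨L', h, p', ⟨V, p, ⟨M, hM⟩, hL'⟩, hh, hx⟩
  refine Set.mem_iUnion.2 ⟨(M, p, p'), V, h, hM, hh, fun x => ?_⟩
  exact (hx x).trans (hL' _)

/-! ### Time `2 ^ g · poly` and polynomial space, with advice -/

theorem dtr_srun (M : SAlg) (N : ℕ) (y : List Bool) : ∀ (n : ℕ) (s : List Bool),
    DTr n (fun a : Fin N → Bool => decide (srun M (orc N a) y n s = some [true])) := by
  intro n
  induction n with
  | zero =>
    intro s
    exact ⟨false, fun a => by simp [srun]⟩
  | succ n ih =>
    intro s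
    rcases hq : M.act (pairBits y s) with _ | ⟨c, q⟩
    · exact DTr.const ⟨false, fun a => by simp [srun, hq]⟩
    · cases c with
      | true => exact DTr.const ⟨decide (q = [true]), fun a => by simp [srun, hq]⟩
      | false =>
        by_cases hN : idx q < N
        · refine Or.inr ⟨⟨idx q, hN⟩, fun b => ?_⟩
          have h1 := DTr_update (ih (M.next (pairBits y (b :: s)))) ⟨idx q, hN⟩ b
          have h2 : (fun a : Fin N → Bool => decide (srun M (orc N (Function.update a
              ⟨idx q, hN⟩ b)) y (n + 1) s = some [true])) = fun a => decide (srun M (orc N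
              (Function.update a ⟨idx q, hN⟩ b)) y n (M.next (pairBits y (b :: s))) =
                some [true]) := by
            funext a
            simp only [srun, hq, orc_update]
          rw [h2]
          exact h1
        · have h2 : (fun a : Fin N → Bool => decide (srun M (orc N a) y (n + 1) s =
              some [true])) = fun a => decide (srun M (orc N a) y n
              (M.next (pairBits y (false :: s))) = some [true]) := by
            funext a
            have : orc N a q = false := by simp [orc, hN]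
            simp only [srun, hq, this]
          rw [h2]
          exact (ih _).succ

/-- the run does not depend on the oracle at long strings -/
theorem srun_congr (M : SAlg) (A A' : Oracle) (y : List Bool)
    (h : ∀ s q, M.Reach A y s → M.act (pairBits y s) = false :: q → A' q = A q) :
    ∀ (n : ℕ) (s : List Bool), M.Reach A y s → srun M A' y n s = srun M A y n s := by
  intro n
  induction n with
  | zero => intro s _; rfl
  | succ n ih =>
    intro s hs
    rcases hq : M.act (pairBits y s) with _ | ⟨c, q⟩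
    · simp only [srun, hq]
    · cases c with
      | true => simp only [srun, hq]
      | false =>
        simp only [srun, hq]
        rw [h s q hs hq]
        exact ih _ (SAlg.Reach.step hs hq)

/-- the oracles for which the algorithm works -/
def SetT (g g' : ℕ → ℕ) (θ : SAlg × Polynomial ℕ) : Set Oracle :=
  {A | ∃ (h : ℕ → List Bool), (∀ n, (h n).length ≤ θ.2.eval n) ∧
    ∀ x, (∀ s, θ.1.Reach A (pairBits x (h x.length)) s → s.length ≤ θ.2.eval x.length) ∧
      ∃ z, srun θ.1 A (pairBits x (h x.length)) (2 ^ g x.length * θ.2.eval x.length) [] =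
        some z ∧ (x ∈ hitG g' A ↔ z = [true])}

theorem null_T {f : ℕ → ℝ} (hf : Cond f) {g g' : ℕ → ℕ} (hg' : Honest g') (hg : Gap g g')
    (θ : SAlg × Polynomial ℕ) : Null f (SetT g g' θ) := by
  obtain ⟨M, p⟩ := θ
  obtain ⟨R, hR⟩ := hg'.bound
  obtain ⟨b, hb⟩ := CC.act_length M p
  refine null_of_dtr hf R hR _ p (b.comp (2 * Polynomial.X + 1 + p))
    (fun n => 2 ^ g n * p.eval n) ?_
    (fun N h x a => decide (srun M (orc N a) (pairBits x h)
      (2 ^ g x.length * p.eval x.length) [] = some [true])) ?_ ?_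
  · filter_upwards [gap_poly hg (64 * p), gap_pos hg] with n h1 h2
    refine ⟨?_, h2⟩
    refine le_trans (le_of_eq ?_) h1
    have h3 : (64 * p).eval n = 64 * p.eval n := by simp
    rw [h3]
    ring
  · intro n N h x hh hx
    rw [hx]
    exact dtr_srun M N _ _ _
  · rintro A ⟨h, hh, hx⟩ n N hN
    refine ⟨h n, hh n, fun x hxn => ?_⟩
    obtain ⟨h1, z, h2, h3⟩ := hx x
    simp only at h1 h2 h3
    rw [h3, decide_eq_true_eq]
    have h4 : (2 * Polynomial.X + 1 + p : Polynomial ℕ).eval n = 2 * n + 1 + p.eval n := by simp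
    rw [Polynomial.eval_comp, h4] at hN
    have hlen : (pairBits x (h n)).length ≤ 2 * n + 1 + p.eval n := by
      rw [length_pairBits, hxn]
      have := hh n
      simp only at this
      omega
    have h5 := srun_congr M A (orc N (pre N A)) (pairBits x (h x.length)) (by
      intro s q hs hq
      apply orc_pre
      have h6 := idx_lt q
      have h7 := hb (pairBits x (h x.length)) s ((h1 s hs).trans (eval_mono _ (by
        rw [length_pairBits]; omega)))
      rw [hq, List.length_cons] at h7
      have h8 : b.eval (pairBits x (h x.length)).length ≤ b.eval (2 * n + 1 + p.eval n) :=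
        eval_mono _ (by rw [hxn]; exact hlen)
      have h9 : 2 ^ (q.length + 1) ≤ 2 ^ (b.eval (2 * n + 1 + p.eval n) + 1) :=
        Nat.pow_le_pow_right (by norm_num) (by omega)
      omega) (2 ^ g x.length * p.eval x.length) [] SAlg.Reach.start
    rw [h2] at h5
    rw [hxn] at h5 ⊢
    rw [h5, Option.some.injEq]

theorem null_TS {f : ℕ → ℝ} (hf : Cond f) {g g' : ℕ → ℕ} (hg' : Honest g') (hg : Gap g g') :
    Null f {A : Oracle | IsTSgPoly g A (hitG g' A)} := by
  have := CC.poly_countable
  have := CC.salg_countable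
  refine (null_iUnion (f := f) (SetT g g') fun θ => null_T hf hg' hg θ).mono ?_
  rintro A ⟨M, h, p, hh, hx⟩
  exact Set.mem_iUnion.2 ⟨(M, p), h, hh, hx⟩

/-! ### The hit language is in `NP_{g'}` -/

theorem hitG_np {g' : ℕ → ℕ} (hg' : Honest g') (A : Oracle) : IsNPg g' A (hitG g' A) := by
  obtain ⟨F, hF, hl⟩ := hg'
  have hFp : Poly F := Pool.Agent.H622R2.poly_of_polyTime hF
  have hw : Poly (fun y : List Bool => (unpair y).1) := Poly.fst poly_unpair
  have hx : Poly (fun y : List Bool => (unpair y).2) := Poly.snd poly_unpair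
  have hFx : Poly (fun y : List Bool => F (unpair y).2) := hFp.comp hx
  set Q : List Bool → List (List Bool) := fun y =>
    (List.range (F (unpair y).2).length).map (fun i =>
    (unpair y).2 ++ (unpair y).1 ++ List.replicate (min i (F (unpair y).2).length) true) with hQ
  have hQp : Poly Q := by
    rw [hQ]
    refine NPC.Poly.map (F := fun (y : List Bool) (i : ℕ) =>
      (unpair y).2 ++ (unpair y).1 ++ List.replicate (min i (F (unpair y).2).length) true)
      (UPoly.range (UPoly.length hFx)) ?_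
    have hx' : Poly (fun p : List Bool × ℕ => (unpair p.1).2) := hx.comp (Poly.fst Poly.id)
    have hw' : Poly (fun p : List Bool × ℕ => (unpair p.1).1) := hw.comp (Poly.fst Poly.id)
    have hF' : Poly (fun p : List Bool × ℕ => F (unpair p.1).2) := hFx.comp (Poly.fst Poly.id)
    refine Poly.append (Poly.append hx' hw') (V7.poly_replicate ?_)
    exact UPoly.of_le (Poly.min (Poly.snd Poly.id) (Poly.length hF')) (UPoly.length hF')
      (fun p => min_le_right _ _)
  set H : List Bool × List Bool → List Bool := fun y =>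
    [decide ((unpair y.1).1.length = (F (unpair y.1).2).length) && y.2.all (fun b => b)] with hH
  have hHp : Poly H := by
    rw [hH]
    have hF' : Poly (fun p : List Bool × List Bool => F (unpair p.1).2) :=
      hFx.comp (Poly.fst Poly.id)
    have hw' : Poly (fun p : List Bool × List Bool => (unpair p.1).1) :=
      hw.comp (Poly.fst Poly.id)
    refine Poly.cons (Poly.and (Poly.decide_eq (Poly.length hw') (Poly.length hF')) ?_)
      (NPC.Poly.const [])
    exact Poly.all (p := fun (_ : List Bool × List Bool) (b : Bool) => b) (Poly.snd Poly.id)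
      (Poly.snd Poly.id)
  refine ⟨fun y => H (y, (Q y).map A), IsFP.tt hQp hHp, fun x => ?_⟩
  have key : ∀ w : List Bool, H (pairBits w x, (Q (pairBits w x)).map A) = [true] ↔
      (w.length = g' x.length ∧
        ∀ i < g' x.length, A (x ++ w ++ List.replicate i true) = true) := by
    intro w
    rw [hH, hQ]
    simp only [unpair_pairBits, List.cons.injEq, and_true, Bool.and_eq_true,
      decide_eq_true_eq, List.all_eq_true, List.mem_map, List.mem_range, hl]
    constructor
    · rintro ⟨h1, h2⟩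
      refine ⟨h1, fun i hi => ?_⟩
      apply h2
      refine ⟨_, ⟨i, hi, rfl⟩, ?_⟩
      rw [min_eq_left hi.le]
    · rintro ⟨h1, h2⟩
      refine ⟨h1, ?_⟩
      rintro b ⟨_, ⟨i, hi, rfl⟩, rfl⟩
      rw [min_eq_left hi.le]
      exact h2 i hi
  constructor
  · rintro ⟨j, hj, h⟩
    refine ⟨bitsOf (g' x.length) j, ?_, ?_⟩
    · rw [length_bitsOf]
    · rw [key]
      exact ⟨length_bitsOf _ _, h⟩
  · rintro ⟨w, _, hw⟩
    rw [key] at hw
    obtain ⟨j, hj, h⟩ := exists_bitsOf w
    rw [hw.1] at hj h
    refine ⟨j, hj, fun i hi => ?_⟩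
    unfold wt
    rw [h]
    exact hw.2 i hi

end Pool.Agent.W890.GH
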