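import Pool.Agent.H620R2.Gauge2.Defs

/-!
# Bounded nondeterminism relative to an oracle

The classes of languages accepted with few guesses, relative to an oracle `A`. Oracles,
polynomial-time oracle algorithms (`IsFP`), polynomial-space oracle algorithms (`SAlg`) and gauges
are the ones of helper620's gauge library.
-/

set_option autoImplicit false

namespace Pool.Agent.W890.GH

open Pool.Agent.NPC Pool.Agent.H620R2.Gauge

/-- The class `NP_g` relative to `A`: `x` is in `L` if and only if some guess string `w` of length
at most `g |x|` is accepted together with `x` by a polynomial-time oracle algorithm. -/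
def IsNPg (g : ℕ → ℕ) (A : Oracle) (L : Set (List Bool)) : Prop :=
  ∃ V : List Bool → List Bool, IsFP A V ∧
    ∀ x, x ∈ L ↔ ∃ w : List Bool, w.length ≤ g x.length ∧ V (pairBits w x) = [true]

/-- The class `NP_g` relative to `A` with polynomial advice: the algorithm gets besides the guess
string `w` and the input `x` a string `h |x|` of polynomially bounded length, which depends on the
length of the input only. (The bound for the guess string is `g |x|`, as without advice.) -/
def IsNPgPoly (g : ℕ → ℕ) (A : Oracle) (L : Set (List Bool)) : Prop :=
  ∃ (V : List Bool → List Bool) (h : ℕ → List Bool) (p : Polynomial ℕ), IsFP A V ∧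
    (∀ n, (h n).length ≤ p.eval n) ∧
    ∀ x, x ∈ L ↔ ∃ w : List Bool, w.length ≤ g x.length ∧
      V (pairBits w (pairBits x (h x.length))) = [true]

/-- The output of an algorithm that works on a memory, with oracle `A`, on input `x`, within `n`
further rounds, if the memory contains `s`; `none` if it does not stop. -/
def srun (M : SAlg) (A : Oracle) (x : List Bool) : ℕ → List Bool → Option (List Bool)
  | 0, _ => none
  | n + 1, s =>
    match M.act (pairBits x s) with
    | [] => none
    | true :: z => some z
    | false :: q => srun M A x n (M.next (pairBits x (A q :: s)))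

/-- Simultaneous polynomial space and time `2 ^ g · poly` relative to `A`, with polynomial advice:
some algorithm working on a memory decides whether `x` is in `L`, given `x` and a string `h |x|` of
polynomially bounded length, with a memory of polynomially bounded length and within
`2 ^ (g |x|) * p |x|` rounds, where `p` is a polynomial. -/
def IsTSgPoly (g : ℕ → ℕ) (A : Oracle) (L : Set (List Bool)) : Prop :=
  ∃ (M : SAlg) (h : ℕ → List Bool) (p : Polynomial ℕ), (∀ n, (h n).length ≤ p.eval n) ∧
    ∀ x, (∀ s, M.Reach A (pairBits x (h x.length)) s → s.length ≤ p.eval x.length) ∧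
      ∃ z, srun M A (pairBits x (h x.length)) (2 ^ g x.length * p.eval x.length) [] = some z ∧
        (x ∈ L ↔ z = [true])

/-- `g n` can be computed from `n` in polynomial time, in unary notation. -/
def Honest (g : ℕ → ℕ) : Prop :=
  ∃ F : List Bool → List Bool, PolyTime F ∧ ∀ x, (F x).length = g x.length

/-- `g' n - g n` grows faster than every multiple of `log n`. -/
def Gap (g g' : ℕ → ℕ) : Prop :=
  ∀ c : ℕ, ∀ᶠ n : ℕ in Filter.atTop, g n + c * Nat.log 2 n ≤ g' n

end Pool.Agent.W890.GH
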