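import Pool.Agent.W890.GH.Cell

/-!
# The conditional probability of a hit is at most the potential
-/

set_option linter.unusedSectionVars false
set_option linter.unusedDecidableInType false
set_option linter.unusedFintypeInType false

namespace Pool.Agent.W890.GH

open Finset H568R2 Pool.Agent.H676 Pool.Agent.H620R2.Gauge

variable {I : Type*} [Fintype I] [DecidableEq I] {J : Type*} [Fintype J]

theorem one_sub_sum_le {ι : Type*} [DecidableEq ι] (S : Finset ι) (h : ι → ℝ)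
    (h0 : ∀ i, 0 ≤ h i) (h1 : ∀ i, h i ≤ 1) :
    1 - ∑ i ∈ S, h i ≤ ∏ i ∈ S, (1 - h i) ∧ 0 ≤ ∏ i ∈ S, (1 - h i) ∧ ∏ i ∈ S, (1 - h i) ≤ 1 := by
  induction S using Finset.induction_on with
  | empty => simp
  | insert i S hi ih =>
    obtain ⟨ih1, ih2, ih3⟩ := ih
    rw [Finset.sum_insert hi, Finset.prod_insert hi]
    have a := h0 i
    have b := h1 i
    refine ⟨?_, ?_, ?_⟩
    · nlinarith
    · exact mul_nonneg (by linarith) ih2
    · nlinarith

theorem pow_half_le {M : ℕ} (hM : 1 ≤ M) (m t : ℕ) (h : m + t = M) :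
    (1 - 1 / (M : ℝ)) ^ m ≤ 1 / 2 + t / M / 2 := by
  have hM0 : (0 : ℝ) < M := by exact_mod_cast hM
  have hM1 : (1 : ℝ) ≤ M := by exact_mod_cast hM
  have hx : 1 / (M : ℝ) ≤ 1 := by rw [div_le_one hM0]; exact hM1
  have hx0 : 0 < 1 / (M : ℝ) := by positivity
  have h1 : (1 - 1 / (M : ℝ)) ^ m * (1 + 1 / (M : ℝ)) ^ m ≤ 1 := by
    rw [← mul_pow]
    exact pow_le_one₀ (by nlinarith) (by nlinarith)
  have h2 : 1 + m * (1 / (M : ℝ)) ≤ (1 + 1 / (M : ℝ)) ^ m :=
    one_add_mul_le_pow (by linarith) m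
  have h3 : (m : ℝ) = M - t := by
    have : (m : ℝ) + t = M := by exact_mod_cast h
    linarith
  have hA : 0 ≤ (1 - 1 / (M : ℝ)) ^ m := pow_nonneg (by linarith) m
  set τ : ℝ := t / M with hτ
  have h4 : 1 + m * (1 / (M : ℝ)) = 2 - τ := by
    rw [h3, hτ]; field_simp; ring
  rw [h4] at h2
  have hτ0 : 0 ≤ τ := by positivity
  have hτ1 : τ ≤ 1 := by
    rw [hτ, div_le_one hM0]
    have : (0 : ℝ) ≤ m := by positivity
    linarith
  have h5 : (1 - 1 / (M : ℝ)) ^ m * (2 - τ) ≤ 1 :=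
    (mul_le_mul_of_nonneg_left h2 hA).trans h1
  have h6 : 1 ≤ (1 / 2 + τ / 2) * (2 - τ) := by nlinarith
  have h7 : 0 < 2 - τ := by linarith
  exact le_of_mul_le_mul_right (h5.trans h6) h7

theorem quarter_le {G : ℕ} (hG : 1 ≤ G) (m : ℕ) (hm : m ≤ 2 ^ G) :
    (1 / 4 : ℝ) ≤ (1 - (1 / 2) ^ G) ^ m := by
  obtain ⟨g, rfl⟩ : ∃ g, G = g + 1 := ⟨G - 1, by omega⟩
  have h0 : (0 : ℝ) < (1 / 2) ^ (g + 1) := by positivity
  have h1 : (1 / 2 : ℝ) ^ (g + 1) ≤ 1 / 2 := by
    rw [pow_succ]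
    have : (1 / 2 : ℝ) ^ g ≤ 1 := pow_le_one₀ (by norm_num) (by norm_num)
    linarith
  have h2 : (1 / 2 : ℝ) ≤ (1 - (1 / 2) ^ (g + 1)) ^ 2 ^ g := by
    have h3 := one_add_mul_le_pow (a := -((1 / 2 : ℝ) ^ (g + 1))) (by linarith) (2 ^ g)
    have h4 : 1 + ((2 ^ g : ℕ) : ℝ) * -((1 / 2 : ℝ) ^ (g + 1)) = 1 / 2 := by
      have : ((2 : ℝ) ^ g) * (1 / 2) ^ g = 1 := by rw [← mul_pow]; norm_num
      push_cast
      rw [pow_succ]
      linear_combination (-1 / 2 : ℝ) * this
    rw [h4] at h3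
    have h5 : (1 + -((1 / 2 : ℝ) ^ (g + 1))) = 1 - (1 / 2) ^ (g + 1) := by ring
    rwa [h5] at h3
  have h3 : (1 / 4 : ℝ) ≤ (1 - (1 / 2) ^ (g + 1)) ^ 2 ^ (g + 1) := by
    have h4 : (1 - (1 / 2 : ℝ) ^ (g + 1)) ^ 2 ^ (g + 1) =
        ((1 - (1 / 2) ^ (g + 1)) ^ 2 ^ g) ^ 2 := by
      rw [← pow_mul]
      congr 1
    rw [h4]
    nlinarith
  refine h3.trans (pow_le_pow_of_le_one (by linarith) (by linarith) hm)

/-- the probability that no cell is all true -/
theorem noHit_eq (W : J → Finset I) (hd : ∀ j j', j ≠ j' → Disjoint (W j) (W j'))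
    (D : Finset I) (v : I → Bool) [DecidablePred (HitF W)] :
    Ex unif (fun a : I → Bool => if HitF W (mix D v a) then (0 : ℝ) else 1) =
      ∏ j, (1 - hh D v (W j)) := by
  classical
  have h1 : ∀ a : I → Bool, (if HitF W (mix D v a) then (0 : ℝ) else 1) =
      ∏ j, (if ∀ i ∈ W j, mix D v a i = true then (0 : ℝ) else 1) := by
    intro a
    by_cases h : HitF W (mix D v a)
    · rw [if_pos h]
      obtain ⟨j, hj⟩ := h
      rw [Finset.prod_eq_zero (Finset.mem_univ j)]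
      rw [if_pos hj]
    · rw [if_neg h, Finset.prod_eq_one]
      intro j _
      rw [if_neg]
      intro hj
      exact h ⟨j, hj⟩
  rw [funext h1]
  refine prod_block_eq univ W (fun j a => if ∀ i ∈ W j, mix D v a i = true then (0 : ℝ) else 1)
    (fun j => 1 - hh D v (W j)) ?_ ?_
  · intro j _ j' _ hne a b
    have h2 : (∀ i ∈ W j, mix D v (mix (W j') b a) i = true) ↔
        (∀ i ∈ W j, mix D v a i = true) := by
      refine forall_congr' fun i => forall_congr' fun hi => ?_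
      have hi' : i ∉ W j' := Finset.disjoint_left.1 (hd j j' hne) hi
      simp [mix, hi']
    simp only [h2]
  · intro j _ a
    have h2 : ∀ b : I → Bool, (if ∀ i ∈ W j, mix D v (mix (W j) b a) i = true then (0 : ℝ) else 1)
        = 1 + (-1) * (if ∀ i ∈ W j, mix D v b i = true then (1 : ℝ) else 0) := by
      intro b
      have h3 : (∀ i ∈ W j, mix D v (mix (W j) b a) i = true) ↔
        (∀ i ∈ W j, mix D v b i = true) := by
        refine forall_congr' fun i => forall_congr' fun hi => ?_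
        simp [mix, hi]
      simp only [h3]
      split_ifs <;> norm_num
    simp only [h2]
    rw [Ex_add, Ex_const unif_sum, Ex_smul, hh_eq]
    ring

open Classical in
/-- Both values of the event that some cell is all true have conditional probability at most `Psi`. -/
theorem hit_le {G : ℕ} (hG : 1 ≤ G) (hJ : Fintype.card J = 2 ^ G) (W : J → Finset I)
    (hW : ∀ j, (W j).card = G) (hd : ∀ j j', j ≠ j' → Disjoint (W j) (W j'))
    (D : Finset I) (v : I → Bool) (c : Bool) :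
    Ex unif (fun a : I → Bool => if (HitF W (mix D v a) ↔ c = true) then (1 : ℝ) else 0) ≤
      Psi ((1 / 2) ^ G) W D v := by
  have h0 := noHit_eq W hd D v
  set P : ℝ := ∏ j, (1 - hh D v (W j)) with hP
  set T : Finset J := univ.filter (fun j => tch D (W j)) with hT
  set U : Finset J := univ.filter (fun j => ¬ tch D (W j)) with hU
  have hTU : U.card + T.card = 2 ^ G := by
    rw [← hJ, ← Finset.card_univ, add_comm, hT, hU]
    exact Finset.card_filter_add_card_filter_not _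
  have hsplit : P = (∏ j ∈ T, (1 - hh D v (W j))) * (1 - (1 / 2) ^ G) ^ U.card := by
    rw [hP, ← Finset.prod_filter_mul_prod_filter_not univ (fun j => tch D (W j))]
    congr 1
    rw [Finset.prod_congr rfl (g := fun _ => 1 - (1 / 2 : ℝ) ^ G), Finset.prod_const]
    intro j hj
    rw [hh_untouched v (Finset.mem_filter.1 hj).2, hW j]
  obtain ⟨a1, a2, a3⟩ := one_sub_sum_le T (fun j => hh D v (W j)) (fun j => hh_nonneg _ _ _)
    (fun j => hh_le_one _ _ _)
  have hPsi : Psi ((1 / 2) ^ G) W D v = 3 / 4 + (∑ j ∈ T, hh D v (W j) + T.card * (1 / 2) ^ G) := by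
    unfold Psi
    rw [← Finset.sum_filter, Finset.sum_add_distrib, Finset.sum_const, nsmul_eq_mul]
  have hS0 : 0 ≤ ∑ j ∈ T, hh D v (W j) := Finset.sum_nonneg fun j _ => hh_nonneg _ _ _
  have hM : ((2 ^ G : ℕ) : ℝ) = 2 ^ G := by push_cast; rfl
  have hinv : (1 / ((2 ^ G : ℕ) : ℝ)) = (1 / 2) ^ G := by
    rw [hM, one_div_pow]
  have hU1 := pow_half_le (M := 2 ^ G) Nat.one_le_two_pow U.card T.card hTU
  rw [hinv] at hU1
  have hT1 : (T.card : ℝ) / ((2 ^ G : ℕ) : ℝ) = T.card * (1 / 2) ^ G := by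
    rw [← hinv]; ring
  rw [hT1] at hU1
  have hT0 : (0 : ℝ) ≤ T.card * (1 / 2) ^ G := by positivity
  have hU2 := quarter_le hG U.card (by omega)
  by_cases hc : c = true
  · -- hit
    have h1 : (fun a : I → Bool => if (HitF W (mix D v a) ↔ c = true) then (1 : ℝ) else 0) =
        fun a => 1 + (-1) * (if HitF W (mix D v a) then (0 : ℝ) else 1) := by
      funext a
      by_cases h : HitF W (mix D v a) <;> simp [h, hc]
    rw [h1, Ex_add, Ex_const unif_sum, Ex_smul, h0, hPsi, hsplit]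
    have h2 : (∏ j ∈ T, (1 - hh D v (W j))) * (1 / 4) ≤
        (∏ j ∈ T, (1 - hh D v (W j))) * (1 - (1 / 2) ^ G) ^ U.card :=
      mul_le_mul_of_nonneg_left hU2 a2
    linarith
  · -- no hit
    have h1 : (fun a : I → Bool => if (HitF W (mix D v a) ↔ c = true) then (1 : ℝ) else 0) =
        fun a => (if HitF W (mix D v a) then (0 : ℝ) else 1) := by
      funext a
      by_cases h : HitF W (mix D v a) <;> simp [h, hc]
    rw [h1, h0, hPsi, hsplit]
    have h2 : (∏ j ∈ T, (1 - hh D v (W j))) * (1 - (1 / 2) ^ G) ^ U.card ≤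
        1 * (1 - (1 / 2) ^ G) ^ U.card := by
      refine mul_le_mul_of_nonneg_right a3 (le_trans (by norm_num) hU2)
    linarith

end Pool.Agent.W890.GH
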