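import Pool.Agent.W890.GH.Hit
import Pool.Agent.H620R2.Gauge.Dt

/-!
# Decision trees do not find hits

If every `f k` is a decision tree of depth `T`, then the probability that all of them say correctly
whether their block of `2 ^ G` cells (of `G` bits each) contains a cell which is all true is at
most `(4 / 5) ^ |X|`, if `64 T ≤ 2 ^ G`. The number of the blocks is arbitrary.
-/

set_option linter.unusedSectionVars false
set_option linter.unusedDecidableInType false
set_option linter.unusedFintypeInType false

namespace Pool.Agent.W890.GH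

open Finset H568R2 Pool.Agent.H676 Pool.Agent.H620R2.Gauge

variable {I : Type*} [Fintype I] [DecidableEq I] {J κ : Type*} [Fintype J]

theorem mix_update_mem {D : Finset I} {v a : I → Bool} {i : I} (hi : i ∈ D) (b : Bool) :
    mix D v (Function.update a i b) = mix D v a := by
  funext j
  unfold mix
  by_cases hj : j ∈ D
  · simp [hj]
  · have : j ≠ i := fun h => hj (h ▸ hi)
    simp [hj, this]

theorem mix_update_notMem {D : Finset I} {v a : I → Bool} {i : I} (hi : i ∉ D) (b : Bool) :
    mix D v (Function.update a i b) = mix (insert i D) (Function.update v i b) a := by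
  funext j
  unfold mix
  by_cases hij : j = i
  · subst hij; simp [hi]
  · by_cases hj : j ∈ D
    · simp [hj, hij]
    · simp [hj, hij]

theorem DTr_mix {t : ℕ} {f : (I → Bool) → Bool} (h : DTr t f) (B : Finset I) (a : I → Bool) :
    DTr t (fun b => f (mix B a b)) := by
  have h1 := h.rs (ρ := fun i => if i ∈ B then some (a i) else none)
  have h2 : rs f (fun i => if i ∈ B then some (a i) else none) = fun b => f (mix B a b) := by
    funext b
    unfold rs ov
    congr 1
    funext j
    by_cases hj : j ∈ B <;> simp [mix, hj]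
  rwa [h2] at h1

/-- The blocks are families of disjoint cells. -/
structure Blocks (G : ℕ) (W : κ → J → Finset I) : Prop where
  card : ∀ k j, (W k j).card = G
  disj : ∀ k j k' j', (k, j) ≠ (k', j') → Disjoint (W k j) (W k' j')

theorem Psi_congr (q : ℝ) (W : J → Finset I) (D D' : Finset I) (v v' : I → Bool)
    (h : ∀ j, ∀ i ∈ W j, (i ∈ D ↔ i ∈ D') ∧ v i = v' i ∨ (i ∉ D ∧ i ∉ D')) :
    Psi q W D v = Psi q W D' v' := by
  unfold Psi
  congr 1
  refine Finset.sum_congr rfl fun j _ => ?_
  have h1 : tch D (W j) ↔ tch D' (W j) := by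
    unfold tch Finset.Nonempty
    refine exists_congr fun i => ?_
    rw [Finset.mem_inter, Finset.mem_inter]
    refine and_congr_right fun hi => ?_
    rcases h j i hi with h | h
    · exact h.1
    · exact ⟨fun h' => absurd h' h.1, fun h' => absurd h' h.2⟩
  have h2 : hh D v (W j) = hh D' v' (W j) := by
    unfold hh
    have h3 : (∀ i ∈ W j, i ∈ D → v i = true) ↔ (∀ i ∈ W j, i ∈ D' → v' i = true) := by
      refine forall_congr' fun i => forall_congr' fun hi => ?_
      rcases h j i hi with h | h
      · rw [h.1, h.2]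
      · exact ⟨fun _ h' => absurd h' h.2, fun _ h' => absurd h' h.1⟩
    have h4 : W j \ D = W j \ D' := by
      ext i
      rw [Finset.mem_sdiff, Finset.mem_sdiff]
      refine and_congr_right fun hi => ?_
      rcases h j i hi with h | h
      · rw [h.1]
      · exact ⟨fun _ => h.2, fun _ => h.1⟩
    simp only [h3, h4]
  simp only [h1, h2]

open Classical in
/-- the indicator of the event -/
noncomputable def ind (W : κ → J → Finset I) (f : κ → (I → Bool) → Bool) (X : Finset κ)
    (a : I → Bool) : ℝ :=
  if ∀ k ∈ X, (HitF (W k) a ↔ f k a = true) then 1 else 0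

theorem ind_nonneg (W : κ → J → Finset I) (f : κ → (I → Bool) → Bool) (X : Finset κ)
    (a : I → Bool) : 0 ≤ ind W f X a := by
  unfold ind; split_ifs <;> norm_num

/-- the statement of the induction -/
def Stm (G T : ℕ) (W : κ → J → Finset I) (f : κ → (I → Bool) → Bool) (X : Finset κ) : Prop :=
  ∀ (D : Finset I) (v : I → Bool), (∀ k ∈ X, DTr T (fun a => f k (mix D v a))) →
    Ex unif (fun a => ind W f X (mix D v a)) ≤
      (∏ k ∈ X, Psi ((1 / 2) ^ G) (W k) D v) * ((1 + 8 / 3 * (1 / 2 : ℝ) ^ G) ^ T) ^ X.card

theorem mem_block {W : κ → J → Finset I} (k : κ) (i : I) :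
    i ∈ univ.biUnion (fun j => W k j) ↔ ∃ j, i ∈ W k j := by
  simp

open Classical in
theorem step {G T : ℕ} (hG : 1 ≤ G) (hJ : Fintype.card J = 2 ^ G) {W : κ → J → Finset I}
    (hW : Blocks G W) (f : κ → (I → Bool) → Bool) {X : Finset κ} {k₀ : κ} (hk₀ : k₀ ∉ X)
    (ih : Stm G T W f X) : ∀ (t : ℕ) (D : Finset I) (v : I → Bool),
    DTr t (fun a => f k₀ (mix D v a)) → (∀ k ∈ X, DTr T (fun a => f k (mix D v a))) →
    Ex unif (fun a => ind W f (insert k₀ X) (mix D v a)) ≤
      (∏ k ∈ insert k₀ X, Psi ((1 / 2) ^ G) (W k) D v) *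
        ((1 + 8 / 3 * (1 / 2 : ℝ) ^ G) ^ t * ((1 + 8 / 3 * (1 / 2 : ℝ) ^ G) ^ T) ^ X.card) := by
  set q : ℝ := (1 / 2) ^ G with hq
  have hq0 : 0 < q := by positivity
  set γ : ℝ := 1 + 8 / 3 * q with hγ
  have hγ1 : 1 ≤ γ := by rw [hγ]; linarith
  have hPsi0 : ∀ (k : κ) (D : Finset I) (v : I → Bool), 0 ≤ Psi q (W k) D v := fun k D v => by
    have := Psi_ge hq0.le (W k) D v
    linarith
  have hdW : ∀ k j j', j ≠ j' → Disjoint (W k j) (W k j') := fun k j j' h =>
    hW.disj k j k j' (fun h' => h (Prod.ext_iff.1 h').2)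
  -- the case of a constant tree
  have hconst : ∀ (t : ℕ) (D : Finset I) (v : I → Bool),
      (∃ c, ∀ a, f k₀ (mix D v a) = c) → (∀ k ∈ X, DTr T (fun a => f k (mix D v a))) →
      Ex unif (fun a => ind W f (insert k₀ X) (mix D v a)) ≤
      (∏ k ∈ insert k₀ X, Psi q (W k) D v) * (γ ^ t * (γ ^ T) ^ X.card) := by
    intro t D v hc hX
    obtain ⟨c, hc⟩ := hc
    set B : Finset I := univ.biUnion (fun j => W k₀ j) with hB
    have hBk : ∀ k, k ≠ k₀ → ∀ j, ∀ i ∈ W k j, i ∉ B := by
      intro k hk j i hi hiB
      obtain ⟨j', hj'⟩ := (mem_block k₀ i).1 hiB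
      exact Finset.disjoint_left.1 (hW.disj k j k₀ j' (fun h => hk (Prod.ext_iff.1 h).1)) hi hj'
    have h1 : ∀ a : I → Bool, ind W f (insert k₀ X) (mix D v a) =
        (if (HitF (W k₀) (mix D v a) ↔ c = true) then (1 : ℝ) else 0) * ind W f X (mix D v a) := by
      intro a
      unfold ind
      by_cases h2 : (HitF (W k₀) (mix D v a) ↔ c = true)
      · by_cases h3 : ∀ k ∈ X, (HitF (W k) (mix D v a) ↔ f k (mix D v a) = true)
        · rw [if_pos h2, if_pos h3, if_pos]
          · norm_num
          · intro k hk
            rcases Finset.mem_insert.1 hk with rfl | hk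
            · rw [hc a]; exact h2
            · exact h3 k hk
        · rw [if_neg h3, if_neg]
          · norm_num
          · intro h4
            exact h3 fun k hk => h4 k (Finset.mem_insert_of_mem hk)
      · rw [if_neg h2, if_neg]
        · norm_num
        · intro h4
          apply h2
          have := h4 k₀ (Finset.mem_insert_self k₀ X)
          rwa [hc a] at this
    rw [funext h1, ← Ex_mix Bᶜ]
    have hmix : ∀ a b : I → Bool, mix Bᶜ b a = mix B a b := by
      intro a b
      funext i
      by_cases hi : i ∈ B <;> simp [mix, hi]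
    simp only [hmix]
    have h2 : ∀ a b : I → Bool, HitF (W k₀) (mix D v (mix B a b)) ↔ HitF (W k₀) (mix D v a) := by
      intro a b
      unfold HitF
      refine exists_congr fun j => forall_congr' fun i => forall_congr' fun hi => ?_
      have hiB : i ∈ B := (mem_block k₀ i).2 ⟨j, hi⟩
      simp [mix, hiB]
    have h3 : ∀ a b : I → Bool, mix D v (mix B a b) = mix (D ∪ B) (mix D v a) b := by
      intro a b
      funext i
      by_cases hi : i ∈ D <;> by_cases hi' : i ∈ B <;> simp [mix, hi, hi']
    have h4 : ∀ a : I → Bool, Ex unif (fun b => (if (HitF (W k₀) (mix D v (mix B a b)) ↔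
        c = true) then (1 : ℝ) else 0) * ind W f X (mix D v (mix B a b))) ≤
        ((∏ k ∈ X, Psi q (W k) D v) * (γ ^ T) ^ X.card) *
          (if (HitF (W k₀) (mix D v a) ↔ c = true) then (1 : ℝ) else 0) := by
      intro a
      simp only [h2]
      rw [Ex_smul, mul_comm]
      apply mul_le_mul_of_nonneg_right
      · simp only [h3]
        have h5 := ih (D ∪ B) (mix D v a) (by
          intro k hk
          have h6 := DTr_mix (hX k hk) B a
          refine (congrArg (DTr T) (funext fun b => ?_)).mp h6
          rw [h3])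
        refine h5.trans (le_of_eq ?_)
        congr 1
        refine Finset.prod_congr rfl fun k hk => ?_
        have hne : k ≠ k₀ := fun h => hk₀ (h ▸ hk)
        refine Psi_congr _ _ _ _ _ _ ?_
        intro j i hi
        have hiB := hBk k hne j i hi
        by_cases hiD : i ∈ D
        · left
          simp [hiD, mix]
        · right
          simp [hiD, hiB]
      · split_ifs <;> norm_num
    refine (Ex_mono unif_nonneg h4).trans ?_
    rw [Ex_smul, Finset.prod_insert hk₀]
    have h5 := hit_le hG hJ (W k₀) (hW.card k₀) (hdW k₀) D v c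
    have hP : 0 ≤ ∏ k ∈ X, Psi q (W k) D v := Finset.prod_nonneg fun k _ => hPsi0 k D v
    have hg : (0 : ℝ) ≤ (γ ^ T) ^ X.card := by positivity
    have hgt : 1 ≤ γ ^ t := one_le_pow₀ hγ1
    calc (∏ k ∈ X, Psi q (W k) D v) * (γ ^ T) ^ X.card * Ex unif (fun a =>
        if (HitF (W k₀) (mix D v a) ↔ c = true) then (1 : ℝ) else 0)
        ≤ (∏ k ∈ X, Psi q (W k) D v) * (γ ^ T) ^ X.card * Psi q (W k₀) D v :=
          mul_le_mul_of_nonneg_left h5 (by positivity)
      _ = (Psi q (W k₀) D v * ∏ k ∈ X, Psi q (W k) D v) * (1 * (γ ^ T) ^ X.card) := by ring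
      _ ≤ _ := by
          apply mul_le_mul_of_nonneg_left
          · exact mul_le_mul_of_nonneg_right hgt hg
          · exact mul_nonneg (hPsi0 _ _ _) hP
  intro t
  induction t with
  | zero =>
    intro D v hk hX
    exact hconst 0 D v hk hX
  | succ t iht =>
    intro D v hk hX
    rcases hk with hk | ⟨i, hk⟩
    · exact hconst (t + 1) D v hk hX
    by_cases hi : i ∈ D
    · -- the bit is known already
      have h1 := hk true
      simp only [mix_update_mem hi] at h1
      refine (iht D v h1 hX).trans ?_
      apply mul_le_mul_of_nonneg_left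
      · apply mul_le_mul_of_nonneg_right
        · exact pow_le_pow_right₀ hγ1 (Nat.le_succ t)
        · positivity
      · exact Finset.prod_nonneg fun k _ => hPsi0 k D v
    · rw [Ex_resample unif_sum _ i]
      simp only [mix_update_notMem hi]
      have h1 : Ex unif (fun a : I → Bool => ∑ b, unif b *
          ind W f (insert k₀ X) (mix (insert i D) (Function.update v i b) a)) =
          ∑ b, unif b * Ex unif (fun a => ind W f (insert k₀ X)
            (mix (insert i D) (Function.update v i b) a)) := by
        rw [Ex_sum]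
        exact Finset.sum_congr rfl fun b _ => Ex_smul _ _ _
      rw [h1]
      have h2 : ∀ b : Bool, Ex unif (fun a => ind W f (insert k₀ X)
            (mix (insert i D) (Function.update v i b) a)) ≤
          (∏ k ∈ insert k₀ X, Psi q (W k) (insert i D) (Function.update v i b)) *
            (γ ^ t * (γ ^ T) ^ X.card) := by
        intro b
        apply iht
        · have h3 := hk b
          simp only [mix_update_notMem hi] at h3
          exact h3
        · intro k hkX
          have h3 := DTr_update (hX k hkX) i b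
          simp only [mix_update_notMem hi] at h3
          exact h3
      have h3 : ∑ b, unif b * Ex unif (fun a => ind W f (insert k₀ X)
            (mix (insert i D) (Function.update v i b) a)) ≤
          (∑ b, unif b * ∏ k ∈ insert k₀ X, Psi q (W k) (insert i D) (Function.update v i b)) *
            (γ ^ t * (γ ^ T) ^ X.card) := by
        rw [Finset.sum_mul]
        refine Finset.sum_le_sum fun b _ => ?_
        rw [mul_assoc]
        exact mul_le_mul_of_nonneg_left (h2 b) (unif_nonneg b)
      refine h3.trans ?_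
      have h4 : ∑ b, unif b * ∏ k ∈ insert k₀ X, Psi q (W k) (insert i D) (Function.update v i b) ≤
          (∏ k ∈ insert k₀ X, Psi q (W k) D v) * γ := by
        by_cases hex : ∃ k ∈ insert k₀ X, ∃ j, i ∈ W k j
        · obtain ⟨k₁, hk₁, j₁, hj₁⟩ := hex
          have hne : ∀ k j, (k, j) ≠ (k₁, j₁) → i ∉ W k j := fun k j h h' =>
            Finset.disjoint_left.1 (hW.disj k j k₁ j₁ h) h' hj₁
          have h5 : ∀ b, ∏ k ∈ insert k₀ X, Psi q (W k) (insert i D) (Function.update v i b) =
              Psi q (W k₁) (insert i D) (Function.update v i b) *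
                ∏ k ∈ (insert k₀ X).erase k₁, Psi q (W k) D v := by
            intro b
            rw [← Finset.mul_prod_erase _ _ hk₁]
            congr 1
            refine Finset.prod_congr rfl fun k hk => ?_
            apply Psi_out
            intro j
            exact hne k j (fun h => (Finset.ne_of_mem_erase hk) (Prod.ext_iff.1 h).1)
          have h6 := Psi_in hq0.le (W k₁) D v i j₁ hj₁ (fun j hj => hne k₁ j (fun h =>
            hj (Prod.ext_iff.1 h).2)) hi (by rw [hW.card])
          calc ∑ b, unif b * ∏ k ∈ insert k₀ X, Psi q (W k) (insert i D) (Function.update v i b)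
              = (∑ b, unif b * Psi q (W k₁) (insert i D) (Function.update v i b)) *
                ∏ k ∈ (insert k₀ X).erase k₁, Psi q (W k) D v := by
                rw [Finset.sum_mul]
                refine Finset.sum_congr rfl fun b _ => ?_
                rw [h5 b, mul_assoc]
            _ ≤ (Psi q (W k₁) D v * (1 + 8 / 3 * q)) *
                ∏ k ∈ (insert k₀ X).erase k₁, Psi q (W k) D v :=
                mul_le_mul_of_nonneg_right h6 (Finset.prod_nonneg fun k _ => hPsi0 k D v)
            _ = (∏ k ∈ insert k₀ X, Psi q (W k) D v) * γ := by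
                rw [← Finset.mul_prod_erase _ _ hk₁, hγ]
                ring
        · have h5 : ∀ b, ∏ k ∈ insert k₀ X, Psi q (W k) (insert i D) (Function.update v i b) =
              ∏ k ∈ insert k₀ X, Psi q (W k) D v := by
            intro b
            refine Finset.prod_congr rfl fun k hk => ?_
            apply Psi_out
            intro j hj
            exact hex ⟨k, hk, j, hj⟩
          have hP : 0 ≤ ∏ k ∈ insert k₀ X, Psi q (W k) D v :=
            Finset.prod_nonneg fun k _ => hPsi0 k D v
          simp only [h5]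
          rw [← Finset.sum_mul, unif_sum, one_mul]
          exact le_mul_of_one_le_right hP hγ1
      calc (∑ b, unif b * ∏ k ∈ insert k₀ X, Psi q (W k) (insert i D) (Function.update v i b)) *
            (γ ^ t * (γ ^ T) ^ X.card)
          ≤ ((∏ k ∈ insert k₀ X, Psi q (W k) D v) * γ) * (γ ^ t * (γ ^ T) ^ X.card) :=
            mul_le_mul_of_nonneg_right h4 (by positivity)
        _ = _ := by rw [pow_succ]; ring

open Classical in
theorem stm {G T : ℕ} (hG : 1 ≤ G) (hJ : Fintype.card J = 2 ^ G) {W : κ → J → Finset I}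
    (hW : Blocks G W) (f : κ → (I → Bool) → Bool) (X : Finset κ) : Stm G T W f X := by
  induction X using Finset.induction_on with
  | empty =>
    intro D v _
    unfold ind
    simp only [Finset.notMem_empty, false_imp_iff, implies_true, if_true, Finset.prod_empty,
      Finset.card_empty, pow_zero, mul_one]
    rw [Ex_const unif_sum]
  | insert k₀ X hk₀ ih =>
    intro D v h
    refine (step hG hJ hW f hk₀ ih T D v (h k₀ (Finset.mem_insert_self k₀ X))
      (fun k hk => h k (Finset.mem_insert_of_mem hk))).trans (le_of_eq ?_)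
    rw [Finset.card_insert_of_notMem hk₀, pow_succ, mul_comm (((1 + 8 / 3 * (1 / 2 : ℝ) ^ G) ^ T) ^
      X.card)]

/-- **Decision trees do not find hits.** -/
theorem comb_hit {G T : ℕ} (hJ : Fintype.card J = 2 ^ G) {W : κ → J → Finset I}
    (hW : Blocks G W) (f : κ → (I → Bool) → Bool) (X : Finset κ) (hT : 64 * T ≤ 2 ^ G)
    (hG : 1 ≤ G) (hf : ∀ k ∈ X, DTr T (f k)) :
    Ex unif (fun a => ind W f X a) ≤ (4 / 5) ^ X.card := by
  have h1 := stm (T := T) hG hJ hW f X ∅ (fun _ => false) (by
    intro k hk
    have : (fun a : I → Bool => f k (mix ∅ (fun _ => false) a)) = f k := by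
      funext a
      congr 1
    rw [this]
    exact hf k hk)
  have h2 : (fun a : I → Bool => ind W f X (mix ∅ (fun _ => false) a)) = fun a => ind W f X a := by
    funext a
    congr 1
  rw [h2] at h1
  refine h1.trans ?_
  simp only [Psi_empty, Finset.prod_const]
  rw [← mul_pow]
  apply pow_le_pow_left₀ (by positivity)
  -- numeric
  set q : ℝ := (1 / 2) ^ G with hq
  have hq0 : 0 < q := by positivity
  have hTq : (T : ℝ) * q ≤ 1 / 64 := by
    have h3 : (64 * (T : ℝ)) ≤ 2 ^ G := by exact_mod_cast hT
    have h4 : (2 : ℝ) ^ G * q = 1 := by rw [hq, ← mul_pow]; norm_num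
    have h5 : 64 * (T : ℝ) * q ≤ 2 ^ G * q := mul_le_mul_of_nonneg_right h3 hq0.le
    linarith
  have hq2 : q ≤ 1 / 2 := by
    obtain ⟨g, rfl⟩ : ∃ g, G = g + 1 := ⟨G - 1, by omega⟩
    rw [hq, pow_succ]
    have : (1 / 2 : ℝ) ^ g ≤ 1 := pow_le_one₀ (by norm_num) (by norm_num)
    linarith
  rcases Nat.eq_zero_or_pos T with h0 | h0
  · subst h0
    norm_num
  · have hq3 : q ≤ 1 / 64 := by
      have : (1 : ℝ) ≤ T := by exact_mod_cast h0
      nlinarith
    have h6 : (1 + 8 / 3 * q) ^ T * (1 - 8 / 3 * q) ^ T ≤ 1 := by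
      rw [← mul_pow]
      exact pow_le_one₀ (by nlinarith) (by nlinarith)
    have h7 : 1 + (T : ℝ) * (-(8 / 3 * q)) ≤ (1 + -(8 / 3 * q)) ^ T :=
      one_add_mul_le_pow (by linarith) T
    have h8 : (1 + -(8 / 3 * q)) = 1 - 8 / 3 * q := by ring
    rw [h8] at h7
    have h9 : (23 / 24 : ℝ) ≤ (1 - 8 / 3 * q) ^ T := by linarith
    have h10 : 0 ≤ (1 + 8 / 3 * q) ^ T := by positivity
    nlinarith

end Pool.Agent.W890.GH
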