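import Pool.Agent.W890.GH.Main
import Pool.Agent.W890.GH.Defs
import Pool.Agent.H620R2.Gauge2.EventN
import Pool.Agent.H620R2.GaugeX.KeyX

/-!
# The hit language with `g' n` guesses; null sets
-/

set_option autoImplicit false
set_option linter.unusedSectionVars false

namespace Pool.Agent.W890.GH

open Pool.Agent.NPC Finset H568R2 Pool.Agent.H676 Pool.Agent.H620R2.Gauge Filter

/-- the `i`-th string of the witness number `j` of `x` -/
def wt (G : ℕ) (x : List Bool) (j i : ℕ) : List Bool :=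
  x ++ bitsOf G j ++ List.replicate i true

/-- `x` is in the hit language if it has a witness all of whose `g' |x|` strings are in `A`. -/
def hitG (g' : ℕ → ℕ) (A : Oracle) : Set (List Bool) :=
  {x | ∃ j < 2 ^ g' x.length, ∀ i < g' x.length, A (wt (g' x.length) x j i) = true}

open Classical in
/-- the positions of the strings of the witness number `j` of `x` -/
noncomputable def cell (N G : ℕ) (x : List Bool) (j : ℕ) : Finset (Fin N) :=
  univ.filter (fun e => ∃ i < G, str e = wt G x j i)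

theorem mem_cell {N G : ℕ} {x : List Bool} {j : ℕ} {e : Fin N} :
    e ∈ cell N G x j ↔ ∃ i < G, str e = wt G x j i := by
  rw [cell, Finset.mem_filter]
  exact ⟨fun h => h.2, fun h => ⟨Finset.mem_univ _, h⟩⟩

/-- the functions `F k` recognise the blocks without a hit -/
def EvC' {κ J I : Type} (W : κ → J → Finset I) (F : κ → (I → Bool) → Bool) (a : I → Bool) : Prop :=
  ∀ k, (F k a = true ↔ ¬ HitF (W k) a)

/-- the functions `F k` recognise the blocks with a hit -/
def EvD {κ J I : Type} (W : κ → J → Finset I) (F : κ → (I → Bool) → Bool) (a : I → Bool) : Prop :=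
  ∀ k, (HitF (W k) a ↔ F k a = true)

theorem length_wt (G : ℕ) (x : List Bool) (j i : ℕ) :
    (wt G x j i).length = x.length + G + i := by
  unfold wt
  rw [List.length_append, List.length_append, length_bitsOf, List.length_replicate]

theorem wt_inj {G : ℕ} {x x' : List Bool} (hx : x.length = x'.length) {j j' i i' : ℕ}
    (hj : j < 2 ^ G) (hj' : j' < 2 ^ G) (h : wt G x j i = wt G x' j' i') :
    x = x' ∧ j = j' ∧ i = i' := by
  have h1 : i = i' := by
    have := congrArg List.length h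
    rw [length_wt, length_wt, hx] at this
    omega
  subst h1
  unfold wt at h
  have h2 := List.append_cancel_right h
  obtain ⟨h3, h4⟩ := List.append_inj h2 hx
  subst h3
  exact ⟨rfl, bitsOf_inj hj hj' h4, rfl⟩

theorem idx_wt_lt {N G : ℕ} {x : List Bool} (hN : 2 ^ (x.length + 2 * G + 1) ≤ N + 1) (j : ℕ)
    {i : ℕ} (hi : i < G) : idx (wt G x j i) < N := by
  have h1 := idx_lt (wt G x j i)
  rw [length_wt] at h1
  have h2 : 2 ^ (x.length + G + i + 1) ≤ 2 ^ (x.length + 2 * G + 1) :=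
    Nat.pow_le_pow_right (by norm_num) (by omega)
  omega

theorem cell_card {N G : ℕ} {x : List Bool} (hN : 2 ^ (x.length + 2 * G + 1) ≤ N + 1) (j : ℕ) :
    (cell N G x j).card = G := by
  have h := Finset.card_bij (s := Finset.range G) (t := cell N G x j)
    (fun i hi => ⟨idx (wt G x j i), idx_wt_lt hN j (Finset.mem_range.1 hi)⟩) (by
      intro i hi
      rw [cell, Finset.mem_filter]
      exact ⟨Finset.mem_univ _, i, Finset.mem_range.1 hi, str_idx _⟩) (by
      intro i hi i' hi' h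
      have h1 : idx (wt G x j i) = idx (wt G x j i') := by simpa using h
      have h2 : wt G x j i = wt G x j i' := by
        rw [← str_idx (wt G x j i), h1, str_idx]
      have := congrArg List.length h2
      rw [length_wt, length_wt] at this
      omega) (by
      intro e he
      rw [cell, Finset.mem_filter] at he
      obtain ⟨_, i, hi, h⟩ := he
      refine ⟨i, Finset.mem_range.2 hi, ?_⟩
      apply Fin.ext
      show idx (wt G x j i) = e
      rw [← h, idx_str])
  rw [← h, Finset.card_range]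

theorem cell_disj {N G : ℕ} {x x' : List Bool} (hx : x.length = x'.length) {j j' : ℕ}
    (hj : j < 2 ^ G) (hj' : j' < 2 ^ G) (hne : (x, j) ≠ (x', j')) :
    Disjoint (cell N G x j) (cell N G x' j') := by
  rw [Finset.disjoint_left]
  intro e he he'
  rw [cell, Finset.mem_filter] at he he'
  obtain ⟨_, i, _, hi⟩ := he
  obtain ⟨_, i', _, hi'⟩ := he'
  rw [hi] at hi'
  obtain ⟨h1, h2, _⟩ := wt_inj hx hj hj' hi'
  exact hne (by rw [h1, h2])

theorem hitG_iff {N n : ℕ} (g' : ℕ → ℕ) (hN : 2 ^ (n + 2 * g' n + 1) ≤ N + 1) (A : Oracle)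
    {x : List Bool} (hx : x.length = n) :
    HitF (fun j : Fin (2 ^ g' n) => cell N (g' n) x j.val) (pre N A) ↔ x ∈ hitG g' A := by
  unfold HitF hitG
  rw [Set.mem_ofPred_eq, hx]
  constructor
  · rintro ⟨j, hj⟩
    refine ⟨j.val, j.2, fun i hi => ?_⟩
    have hlt : idx (wt (g' n) x j.val i) < N := idx_wt_lt (by rw [hx]; exact hN) _ hi
    have h3 := hj ⟨idx (wt (g' n) x j.val i), hlt⟩ (mem_cell.2 ⟨i, hi, str_idx _⟩)
    unfold pre at h3
    simp only at h3
    rwa [str_idx] at h3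
  · rintro ⟨j, hj, h⟩
    refine ⟨⟨j, hj⟩, fun e he => ?_⟩
    obtain ⟨i, hi, hei⟩ := mem_cell.1 he
    unfold pre
    rw [hei]
    exact h i hi

/-- the choice of the parameters -/
theorem asymG (P Q : Polynomial ℕ) (f : ℕ → ℝ) (hf : Cond f) (δ : ℝ) (hδ : 0 < δ)
    (E : ℕ → Prop) (hE : ∀ᶠ n : ℕ in atTop, E n) :
    ∃ n N : ℕ, E n ∧ 1 ≤ n ∧ 2 ^ (Q.eval n + 1) ≤ N ∧
      32 * 2 ^ (n / 2) * (P.eval n + 1) ≤ 2 ^ n ∧
      2 ^ P.eval n * (2 * (2 / 3 : ℝ) ^ 2 ^ (n / 2)) * 2 ^ f N ≤ δ := by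
  obtain ⟨n, N, ⟨⟨a1, a2, a3, a4⟩, hEn⟩, b, c⟩ := V69_choose Q f hf _ ((V69_ev P δ).and hE)
  set u : ℕ := n / 2 with hu
  have h2u : 2 * u ≤ n := Nat.mul_div_le n 2
  have hpp : 2 ^ u * 2 ^ u ≤ 2 ^ n := by
    rw [← pow_add]
    exact Nat.pow_le_pow_right (by norm_num) (by omega)
  refine ⟨n, N, hEn, by omega, b, ?_, ?_⟩
  · calc 32 * 2 ^ u * (P.eval n + 1) ≤ 2 ^ u * (64 * (P.eval n + 1)) := by
          have : 0 ≤ 2 ^ u * (P.eval n + 1) := Nat.zero_le _
          nlinarith
      _ ≤ 2 ^ u * 2 ^ u := Nat.mul_le_mul_left _ a1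
      _ ≤ 2 ^ n := hpp
  · have hF : 16 * f N ≤ (2 : ℝ) ^ u := by
      have h1 : f N ≤ 2 ^ ((u : ℝ) - 4) :=
        c.trans (Real.rpow_le_rpow_of_exponent_le (by norm_num) (by linarith))
      rw [Real.rpow_sub (by norm_num), Real.rpow_natCast] at h1
      have h2 : (2 : ℝ) ^ (4 : ℝ) = 16 := by norm_num
      rw [h2] at h1
      linarith
    have hp : 16 * ((P.eval n : ℕ) : ℝ) ≤ (2 : ℝ) ^ u := by
      have : 16 * P.eval n ≤ 2 ^ u := by omega
      exact_mod_cast this
    have hT1 : (8 : ℝ) ≤ (2 : ℝ) ^ u := by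
      have : 8 ≤ 2 ^ u := by omega
      exact_mod_cast this
    have hh := V69_half (2 ^ u)
    push_cast at hh
    have hm := V69_real δ hδ (P.eval n : ℕ) (2 ^ u) (f N) hp hF a2 hT1
    refine le_trans ?_ hm
    rw [Real.rpow_natCast]
    have : (0 : ℝ) < 2 ^ f N := by positivity
    gcongr

open Classical in
/-- **The union bound over the advice.** -/
theorem advice_bound {N b : ℕ} (E : List Bool → (Fin N → Bool) → Prop) (β : ℝ) (hβ : 0 ≤ β)
    (h : ∀ s : List Bool, s.length ≤ b →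
      Ex unif (fun a : Fin N → Bool => if E s a then (1 : ℝ) else 0) ≤ β) :
    Ex unif (fun a : Fin N → Bool => if ∃ s : List Bool, s.length ≤ b ∧ E s a then (1 : ℝ) else 0)
      ≤ 2 ^ (2 * b) * β := by
  have h1 : Ex unif (fun a : Fin N → Bool =>
      if ∃ s : List Bool, s.length ≤ b ∧ E s a then (1 : ℝ) else 0) ≤
      ∑ c ∈ Finset.range (b + 1), ∑ s ∈ strsOf c, Ex unif (fun a : Fin N → Bool =>
        if E s a then (1 : ℝ) else 0) := by
    simp only [← Ex_sum]
    apply Ex_mono unif_nonneg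
    intro a
    by_cases hE : ∃ s : List Bool, s.length ≤ b ∧ E s a
    · rw [if_pos hE]
      obtain ⟨s, hs, hE⟩ := hE
      refine le_trans ?_ (Finset.single_le_sum (f := fun c => ∑ s ∈ strsOf c,
        if E s a then (1 : ℝ) else 0)
        (fun c _ => Finset.sum_nonneg fun h _ => by positivity)
        (Finset.mem_range.2 (Nat.lt_succ_of_le hs)))
      refine le_trans ?_ (Finset.single_le_sum (f := fun h =>
        if E h a then (1 : ℝ) else 0)
        (fun h _ => by positivity) (mem_strsOf s))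
      rw [if_pos hE]
    · rw [if_neg hE]
      exact Finset.sum_nonneg fun c _ => Finset.sum_nonneg fun h _ => by positivity
  refine h1.trans ?_
  have h2 : ∀ c ∈ Finset.range (b + 1), ∑ s ∈ strsOf c, Ex unif (fun a : Fin N → Bool =>
        if E s a then (1 : ℝ) else 0) ≤ 2 ^ b * β := by
    intro c hc
    rw [Finset.mem_range, Nat.lt_succ_iff] at hc
    calc ∑ s ∈ strsOf c, Ex unif (fun a : Fin N → Bool => if E s a then (1 : ℝ) else 0)
        ≤ ∑ s ∈ strsOf c, β := by
          refine Finset.sum_le_sum fun s hs => h s ?_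
          obtain ⟨i, _, rfl⟩ := Finset.mem_image.1 hs
          rw [length_bitsOf]
          exact hc
      _ = (strsOf c).card * β := by rw [Finset.sum_const, nsmul_eq_mul]
      _ ≤ 2 ^ b * β := by
          apply mul_le_mul_of_nonneg_right _ hβ
          have h5 : (strsOf c).card ≤ 2 ^ b :=
            (card_strsOf c).trans (Nat.pow_le_pow_right (by norm_num) hc)
          exact_mod_cast h5
  refine (Finset.sum_le_sum h2).trans ?_
  rw [Finset.sum_const, Finset.card_range, nsmul_eq_mul, ← mul_assoc]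
  apply mul_le_mul_of_nonneg_right _ hβ
  have h3 : ((b + 1 : ℕ) : ℝ) ≤ 2 ^ b := by
    have : b + 1 ≤ 2 ^ b := Nat.lt_two_pow_self
    exact_mod_cast this
  calc ((b + 1 : ℕ) : ℝ) * 2 ^ b ≤ 2 ^ b * 2 ^ b := by gcongr
    _ = 2 ^ (2 * b) := by rw [← pow_add]; congr 1; ring

/-- **Shallow decision trees with advice do not recognise the hit language.** -/
theorem null_of_dtr {f : ℕ → ℝ} (hf : Cond f) {g' : ℕ → ℕ} (R : Polynomial ℕ)
    (hR : ∀ n, g' n ≤ R.eval n) (X : Set Oracle) (p Q : Polynomial ℕ) (T : ℕ → ℕ)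
    (hT : ∀ᶠ n : ℕ in atTop, 64 * T n ≤ 2 ^ g' n ∧ 1 ≤ g' n)
    (F : (N : ℕ) → List Bool → List Bool → (Fin N → Bool) → Bool)
    (hF : ∀ (n N : ℕ) (h x : List Bool), h.length ≤ p.eval n → x.length = n →
      DTr (T n) (F N h x))
    (hX : ∀ A ∈ X, ∀ n N : ℕ, 2 ^ (Q.eval n + 1) ≤ N → ∃ h : List Bool, h.length ≤ p.eval n ∧
      ∀ x : List Bool, x.length = n → (x ∈ hitG g' A ↔ F N h x (pre N A) = true)) :
    Null f X := by
  classical
  intro δ hδ
  obtain ⟨n, N, ⟨hTn, hG⟩, hn, hN, _, hb⟩ := asymG (2 * p) (Q + Polynomial.X + 2 * R) f hf δ hδ _ hT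
  have hQe : (Q + Polynomial.X + 2 * R).eval n = Q.eval n + n + 2 * R.eval n := by simp
  rw [hQe] at hN
  have hN1 : 2 ^ (Q.eval n + 1) ≤ N :=
    le_trans (Nat.pow_le_pow_right (by norm_num) (by omega)) hN
  have hN2 : 2 ^ (n + 2 * g' n + 1) ≤ N + 1 := by
    have := hR n
    exact le_trans (Nat.pow_le_pow_right (by norm_num) (by omega)) (hN.trans (Nat.le_succ _))
  set W : Fin (2 ^ n) → Fin (2 ^ g' n) → Finset (Fin N) := fun k j =>
    cell N (g' n) (bitsOf n k.val) j.val with hW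
  have hlen : ∀ k : Fin (2 ^ n), (bitsOf n k.val).length = n := fun k => length_bitsOf n _
  have hWB : Blocks (g' n) W := by
    refine ⟨fun k j => cell_card (by rw [hlen]; exact hN2) _, ?_⟩
    intro k j k' j' hne
    apply cell_disj (by rw [hlen, hlen]) j.2 j'.2
    intro h
    apply hne
    rw [Prod.mk.injEq] at h
    rw [Fin.ext (bitsOf_inj k.2 k'.2 h.1), Fin.ext h.2]
  have hEb : ∀ s : List Bool, s.length ≤ p.eval n →
      Ex unif (fun a : Fin N → Bool => if EvD W (fun k => F N s (bitsOf n k.val)) a then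
        (1 : ℝ) else 0) ≤ 2 * (2 / 3 : ℝ) ^ 2 ^ (n / 2) := by
    intro s hs
    have h1 := comb_hit (J := Fin (2 ^ g' n)) (T := T n) (by simp) hWB
      (fun k => F N s (bitsOf n k.val)) univ hTn hG
      (fun k _ => hF n N s _ hs (hlen k))
    have h2 : (fun a : Fin N → Bool => ind W (fun k => F N s (bitsOf n k.val)) univ a) =
        fun a => if EvD W (fun k => F N s (bitsOf n k.val)) a then (1 : ℝ) else 0 := by
      funext a
      unfold ind EvD
      simp only [Finset.mem_univ, true_imp_iff]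
      congr
    rw [h2, Finset.card_univ, Fintype.card_fin] at h1
    refine h1.trans ?_
    have h3 : 2 * 2 ^ (n / 2) ≤ 2 ^ n := by
      rw [← pow_succ']
      exact Nat.pow_le_pow_right (by norm_num) (by omega)
    calc (4 / 5 : ℝ) ^ 2 ^ n ≤ (4 / 5 : ℝ) ^ (2 * 2 ^ (n / 2)) :=
          pow_le_pow_of_le_one (by norm_num) (by norm_num) h3
      _ = ((4 / 5 : ℝ) ^ 2) ^ 2 ^ (n / 2) := by rw [pow_mul]
      _ ≤ (2 / 3 : ℝ) ^ 2 ^ (n / 2) := pow_le_pow_left₀ (by norm_num) (by norm_num) _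
      _ ≤ 2 * (2 / 3 : ℝ) ^ 2 ^ (n / 2) := by
          have : (0 : ℝ) ≤ (2 / 3) ^ 2 ^ (n / 2) := by positivity
          linarith
  have hadv := advice_bound (b := p.eval n) (fun s a => EvD W (fun k => F N s (bitsOf n k.val)) a)
    _ (by positivity) hEb
  refine cover_of_event (fun a => ∃ s : List Bool, s.length ≤ p.eval n ∧
    EvD W (fun k => F N s (bitsOf n k.val)) a) X ?_ f δ ?_
  · intro A hA
    obtain ⟨h, hh, hx⟩ := hX A hA n N hN1
    refine ⟨h, hh, fun k => ?_⟩
    rw [← hx _ (hlen k)]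
    exact hitG_iff g' hN2 A (hlen k)
  · refine le_trans (mul_le_mul_of_nonneg_right hadv (by positivity)) ?_
    have h5 : (2 * p).eval n = 2 * p.eval n := by simp
    rw [h5] at hb
    exact hb

/-- **Nondeterministic algorithms with advice do not recognise the complement of the hit
language.** -/
theorem null_of_cert {f : ℕ → ℝ} (hf : Cond f) {g' : ℕ → ℕ} (R : Polynomial ℕ)
    (hR : ∀ n, g' n ≤ R.eval n) (X : Set Oracle) (p Q P : Polynomial ℕ)
    (hT : ∀ᶠ n : ℕ in atTop, 2 * P.eval n ≤ 2 ^ g' n ∧ 1 ≤ g' n)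
    (F : (N : ℕ) → List Bool → List Bool → (Fin N → Bool) → Bool)
    (hF : ∀ (n N : ℕ) (h x : List Bool), h.length ≤ p.eval n → x.length = n →
      Cert (P.eval n) true (F N h x))
    (hX : ∀ A ∈ X, ∀ n N : ℕ, 2 ^ (Q.eval n + 1) ≤ N → ∃ h : List Bool, h.length ≤ p.eval n ∧
      ∀ x : List Bool, x.length = n → (x ∉ hitG g' A ↔ F N h x (pre N A) = true)) :
    Null f X := by
  classical
  intro δ hδ
  obtain ⟨n, N, ⟨hTn, hG⟩, hn, hN, hsz, hb⟩ :=
    asymG (2 * p + P) (Q + Polynomial.X + 2 * R) f hf δ hδ _ hT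
  have hQe : (Q + Polynomial.X + 2 * R).eval n = Q.eval n + n + 2 * R.eval n := by simp
  have hPe : (2 * p + P).eval n = 2 * p.eval n + P.eval n := by simp
  rw [hQe] at hN
  rw [hPe] at hsz hb
  have hN1 : 2 ^ (Q.eval n + 1) ≤ N :=
    le_trans (Nat.pow_le_pow_right (by norm_num) (by omega)) hN
  have hN2 : 2 ^ (n + 2 * g' n + 1) ≤ N + 1 := by
    have := hR n
    exact le_trans (Nat.pow_le_pow_right (by norm_num) (by omega)) (hN.trans (Nat.le_succ _))
  set σ : ℕ := 2 ^ (n / 2) with hσ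
  set r : ℕ := 2 * (P.eval n + 1) with hr
  have hσr : 16 * σ * r ≤ 2 ^ n := by
    calc 16 * σ * r = 32 * σ * (P.eval n + 1) := by rw [hr]; ring
      _ ≤ 32 * σ * (2 * p.eval n + P.eval n + 1) := Nat.mul_le_mul_left _ (by omega)
      _ ≤ 2 ^ n := hsz
  set W : Fin (16 * σ) × Fin r → Fin (2 ^ g' n) → Finset (Fin N) := fun k j =>
    cell N (g' n) (inp n σ r k) j.val with hW
  have hlen : ∀ k : Fin (16 * σ) × Fin r, (inp n σ r k).length = n := fun k => length_inp n σ r k
  have hEb : ∀ s : List Bool, s.length ≤ p.eval n →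
      Ex unif (fun a : Fin N → Bool => if EvC' W (fun k => F N s (inp n σ r k)) a then
        (1 : ℝ) else 0) ≤ 2 * (2 / 3 : ℝ) ^ 2 ^ (n / 2) := by
    intro s hs
    have h0 := np_comb (p := P.eval n) (J := Fin (2 ^ g' n)) hG (by simp) hTn (by omega)
      (by omega) W ?_ ?_ (fun k => F N s (inp n σ r k)) ?_
    · refine le_trans (le_of_eq (congrArg (Ex unif) (funext fun a => ?_))) h0
      by_cases h : EvC' W (fun k => F N s (inp n σ r k)) a
      · rw [if_pos h]
        exact (if_pos h).symm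
      · rw [if_neg h]
        exact (if_neg h).symm
    · intro k j
      exact cell_card (by rw [hlen]; exact hN2) _
    · intro k j k' j' hne
      apply cell_disj (by rw [hlen, hlen]) j.2 j'.2
      intro he
      apply hne
      rw [Prod.mk.injEq] at he
      rw [inp_inj hσr he.1, Fin.ext he.2]
    · intro k
      exact hF n N s _ hs (hlen k)
  have hadv := advice_bound (b := p.eval n)
    (fun s a => EvC' W (fun k => F N s (inp n σ r k)) a) _ (by positivity) hEb
  refine cover_of_event (fun a => ∃ s : List Bool, s.length ≤ p.eval n ∧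
    EvC' W (fun k => F N s (inp n σ r k)) a) X ?_ f δ ?_
  · intro A hA
    obtain ⟨h, hh, hx⟩ := hX A hA n N hN1
    refine ⟨h, hh, fun k => ?_⟩
    rw [← hx _ (hlen k)]
    exact (not_congr (hitG_iff g' hN2 A (hlen k))).symm
  · refine le_trans (mul_le_mul_of_nonneg_right hadv (by positivity)) ?_
    refine le_trans ?_ hb
    have h6 : (2 : ℝ) ^ (2 * p.eval n) ≤ 2 ^ (2 * p.eval n + P.eval n) :=
      pow_le_pow_right₀ (by norm_num) (by omega)
    gcongr

end Pool.Agent.W890.GH
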